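import Pool.Agent.Work.ImTreewidth.Poly

set_option autoImplicit false

namespace Pool.Agent.IMT

open Finset Classical

/-- nodes of the tree, as a type without an order -/
def Nd (n : ℕ) : Type := Fin n

instance (n : ℕ) : Fintype (Nd n) := inferInstanceAs (Fintype (Fin n))

section
variable {n : ℕ} {S : SimpleGraph (Fin n)}

/-- the unique path from the root -/
noncomputable def pth (hS : S.IsTree) (ρ b : Fin n) : S.Walk ρ b :=
  (hS.existsUnique_path ρ b).choose

theorem pth_isPath (hS : S.IsTree) (ρ b : Fin n) : (pth hS ρ b).IsPath :=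
  (hS.existsUnique_path ρ b).choose_spec.1

theorem pth_unique (hS : S.IsTree) {ρ b : Fin n} (p : S.Walk ρ b) (hp : p.IsPath) :
    p = pth hS ρ b :=
  (hS.existsUnique_path ρ b).unique hp (pth_isPath hS ρ b)

theorem pth_takeUntil (hS : S.IsTree) {ρ a b : Fin n} (h : a ∈ (pth hS ρ b).support) :
    (pth hS ρ b).takeUntil a h = pth hS ρ a :=
  pth_unique hS _ ((pth_isPath hS ρ b).takeUntil h)

theorem pth_support_subset (hS : S.IsTree) {ρ a b : Fin n} (h : a ∈ (pth hS ρ b).support) :
    (pth hS ρ a).support ⊆ (pth hS ρ b).support := by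
  rw [← pth_takeUntil hS h]
  exact SimpleGraph.Walk.support_takeUntil_subset_support _ h

theorem pth_length_lt (hS : S.IsTree) {ρ a b : Fin n} (h : a ∈ (pth hS ρ b).support)
    (hne : a ≠ b) : (pth hS ρ a).length < (pth hS ρ b).length := by
  rw [← pth_takeUntil hS h]
  exact SimpleGraph.Walk.length_takeUntil_lt_length h hne

/-- the rooted tree order -/
@[instance_reducible] noncomputable def treeOrder (hS : S.IsTree) (ρ : Fin n) : PartialOrder (Nd n) where
  le a b := (a : Fin n) ∈ (pth hS ρ b).support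
  le_refl a := SimpleGraph.Walk.end_mem_support _
  le_trans a b c h1 h2 := pth_support_subset hS h2 h1
  le_antisymm a b h1 h2 := by
    by_contra hne
    have h3 := pth_length_lt hS h1 hne
    have h4 := pth_length_lt hS h2 (Ne.symm hne)
    omega

theorem chain_fin (hS : S.IsTree) (ρ a b t : Fin n) (ha : a ∈ (pth hS ρ t).support)
    (hb : b ∈ (pth hS ρ t).support) :
    a ∈ (pth hS ρ b).support ∨ b ∈ (pth hS ρ a).support := by
  have key : ∀ (i j : ℕ), i ≤ j →
      (pth hS ρ t).getVert i ∈ (pth hS ρ ((pth hS ρ t).getVert j)).support := by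
    intro i j hij
    have h1 : (pth hS ρ t).take j = pth hS ρ ((pth hS ρ t).getVert j) :=
      pth_unique hS _ ((pth_isPath hS ρ t).take j)
    rw [← h1]
    have h2 : ((pth hS ρ t).take j).getVert i = (pth hS ρ t).getVert i := by
      rw [SimpleGraph.Walk.take_getVert]
      congr 1
      omega
    rw [← h2]
    exact SimpleGraph.Walk.getVert_mem_support _ _
  obtain ⟨i, hi, _⟩ := SimpleGraph.Walk.mem_support_iff_exists_getVert.1 ha
  obtain ⟨j, hj, _⟩ := SimpleGraph.Walk.mem_support_iff_exists_getVert.1 hb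
  rcases le_total i j with h | h
  · left
    have := key i j h
    rw [hi, hj] at this
    exact this
  · right
    have := key j i h
    rw [hi, hj] at this
    exact this

theorem treeOrder_treeOrd (hS : S.IsTree) (ρ : Fin n) :
    @TreeOrd (Nd n) (treeOrder hS ρ) :=
  fun a b t ha hb => chain_fin hS ρ a b t ha hb

theorem append_isPath {u v w : Fin n} (p : S.Walk u v) (q : S.Walk v w) (hp : p.IsPath)
    (hq : q.IsPath) (hd : ∀ x ∈ p.support, x ∈ q.support → x = v) : (p.append q).IsPath := by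
  rw [SimpleGraph.Walk.isPath_def, SimpleGraph.Walk.support_append, List.nodup_append]
  refine ⟨hp.support_nodup, hq.support_nodup.tail, ?_⟩
  intro x hx y hy hxy
  subst hxy
  have h1 := hd x hx (List.mem_of_mem_tail hy)
  subst h1
  have h2 := hq.support_nodup
  rw [← SimpleGraph.Walk.cons_tail_support q] at h2
  exact (List.nodup_cons.1 h2).1 hy

/-- a connected set of nodes is a subtree of the rooted tree order -/
theorem exists_top (hS : S.IsTree) (ρ : Fin n) (W : Finset (Fin n)) (hne : W.Nonempty)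
    (hW : ∀ i j, i ∈ W → j ∈ W → ∃ p : S.Walk i j, ∀ x ∈ p.support, x ∈ W) :
    ∃ r ∈ W, ∀ t ∈ W, r ∈ (pth hS ρ t).support ∧
      ∀ s, r ∈ (pth hS ρ s).support → s ∈ (pth hS ρ t).support → s ∈ W := by
  obtain ⟨r, hr, hmin⟩ := Finset.exists_min_image W (fun t => (pth hS ρ t).length) hne
  refine ⟨r, hr, fun t ht => ?_⟩
  obtain ⟨q, hq⟩ := hW r t hr ht
  have hq' : ∀ x ∈ q.bypass.support, x ∈ W := fun x hx =>
    hq x (SimpleGraph.Walk.support_bypass_subset_support q hx)
  have hqp : q.bypass.IsPath := SimpleGraph.Walk.bypass_isPath q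
  have honly : ∀ x ∈ (pth hS ρ r).support, x ∈ q.bypass.support → x = r := by
    intro x hx hx'
    by_contra hne
    have h1 := pth_length_lt hS hx hne
    have h2 := hmin x (hq' x hx')
    omega
  have hpath := append_isPath _ _ (pth_isPath hS ρ r) hqp honly
  have he := pth_unique hS _ hpath
  rw [← he]
  refine ⟨?_, ?_⟩
  · rw [SimpleGraph.Walk.mem_support_append_iff]
    exact Or.inl (SimpleGraph.Walk.end_mem_support _)
  · intro s hrs hs
    rw [SimpleGraph.Walk.mem_support_append_iff] at hs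
    rcases hs with hs | hs
    · -- s ≤ r and r ≤ s
      by_cases hsr : s = r
      · rw [hsr]; exact hr
      · have h1 := pth_length_lt hS hs hsr
        have h2 := pth_length_lt hS hrs (Ne.symm hsr)
        omega
    · exact hq' s hs

end

theorem final (k : ℕ) : ∃ c d : ℕ, ∀ (V : Type) [Fintype V] (G : SimpleGraph V),
    (∃ n : ℕ, ∃ T : SimpleGraph (Fin n), ∃ bag : Fin n → Finset V,
      T.IsTree ∧
      (∀ v : V, ∃ i : Fin n, v ∈ bag i) ∧
      (∀ u v : V, G.Adj u v → ∃ i : Fin n, u ∈ bag i ∧ v ∈ bag i) ∧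
      (∀ v : V, ∀ i j : Fin n, v ∈ bag i → v ∈ bag j →
        ∃ p : T.Walk i j, ∀ x ∈ p.support, v ∈ bag x) ∧
      (∀ i : Fin n, ∀ S : Finset V,
        (∀ v ∈ S, ∃! u : V, u ∈ S ∧ G.Adj v u) →
        (∀ v ∈ S, ∃ u ∈ S, G.Adj v u ∧ (v ∈ bag i ∨ u ∈ bag i)) →
        S.card ≤ 2 * k)) →
    G.chromaticNumber ≤ ((c * G.cliqueNum ^ d : ℕ) : ℕ∞) := by
  obtain ⟨a, e, hmain⟩ := main_poly k
  refine ⟨a, e, ?_⟩
  intro V _ G ⟨n, S, bag, hS, hcov, hedge, hconn, hmu⟩
  by_cases hV : IsEmpty V
  · have : G.chromaticNumber = 0 := SimpleGraph.chromaticNumber_eq_zero_iff.2 hV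
    rw [this]; simp
  rw [not_isEmpty_iff] at hV
  obtain ⟨v0⟩ := hV
  obtain ⟨ρ, _⟩ := hcov v0
  have hd : 1 ≤ G.cliqueNum := by
    have h1 : G.IsClique (({v0} : Finset V) : Set V) := by simp
    have := SimpleGraph.IsClique.card_le_cliqueNum (G := G) (t := {v0}) (tc := h1)
    simpa using this
  let _inst : PartialOrder (Nd n) := treeOrder hS ρ
  have hN : TreeOrd (Nd n) := treeOrder_treeOrd hS ρ
  let W : V → Finset (Fin n) := fun v => Finset.univ.filter (fun i => v ∈ bag i)
  have hWmem : ∀ v i, i ∈ W v ↔ v ∈ bag i := by intro v i; simp [W]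
  have htop : ∀ v, ∃ r ∈ W v, ∀ t ∈ W v, r ∈ (pth hS ρ t).support ∧
      ∀ s, r ∈ (pth hS ρ s).support → s ∈ (pth hS ρ t).support → s ∈ W v := by
    intro v
    refine exists_top hS ρ (W v) ?_ ?_
    · obtain ⟨i, hi⟩ := hcov v
      exact ⟨i, (hWmem v i).2 hi⟩
    · intro i j hi hj
      obtain ⟨p, hp⟩ := hconn v i j ((hWmem v i).1 hi) ((hWmem v j).1 hj)
      exact ⟨p, fun x hx => (hWmem v x).2 (hp x hx)⟩
  choose r hr1 hr2 using htop
  let T : V → Finset (Nd n) := W
  have hSys : Sys G (Finset.univ : Finset V) T r := by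
    refine ⟨fun v _ => hr1 v, fun v _ t ht => (hr2 v t ht).1, fun v _ t ht s h1 h2 =>
      (hr2 v t ht).2 s h1 h2, ?_⟩
    intro v _ w _ ha
    obtain ⟨i, h1, h2⟩ := hedge v w ha
    exact ⟨i, (hWmem v i).2 h1, (hWmem w i).2 h2⟩
  have hMu : Mu G (Finset.univ : Finset V) T k := by
    intro t M _ hM ht
    refine hmu t M hM ?_
    intro v hv
    obtain ⟨u, hu, hau, h'⟩ := ht v hv
    exact ⟨u, hu, hau, h'.imp (fun h => (hWmem v t).1 h) (fun h => (hWmem u t).1 h)⟩
  have hCN : CN G (Finset.univ : Finset V) G.cliqueNum := by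
    intro K _ hK
    have h1 : G.IsClique (K : Set V) := by
      intro x hx y hy hxy
      exact hK x hx y hy hxy
    exact SimpleGraph.IsClique.card_le_cliqueNum (G := G) (t := K) (tc := h1)
  obtain ⟨c, hc1, hc2⟩ := hmain (Nd n) V hN G Finset.univ T r G.cliqueNum hd hSys hMu hCN
  refine SimpleGraph.Colorable.chromaticNumber_le ?_
  exact ⟨SimpleGraph.Coloring.mk (fun v => (⟨c v, hc1 v (Finset.mem_univ v)⟩ : Fin _))
    (by
      intro v w ha he
      exact hc2 v (Finset.mem_univ v) w (Finset.mem_univ w) ha (by simpa using he))⟩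

end Pool.Agent.IMT
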