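import Mathlib

set_option autoImplicit false

namespace Pool.Agent.IMT

open Finset Classical

variable {V : Type}

/-- `Z` can be properly coloured with `m` colours. -/
def ColOn (G : SimpleGraph V) (Z : Finset V) (m : ℕ) : Prop :=
  ∃ c : V → ℕ, (∀ v ∈ Z, c v < m) ∧ ∀ v ∈ Z, ∀ w ∈ Z, G.Adj v w → c v ≠ c w

theorem ColOn.mono {G : SimpleGraph V} {Z Z' : Finset V} {m m' : ℕ} (h : ColOn G Z m)
    (hZ : Z' ⊆ Z) (hm : m ≤ m') : ColOn G Z' m' := by
  obtain ⟨c, h1, h2⟩ := h
  exact ⟨c, fun v hv => lt_of_lt_of_le (h1 v (hZ hv)) hm,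
    fun v hv w hw => h2 v (hZ hv) w (hZ hw)⟩

theorem ColOn.empty (G : SimpleGraph V) (m : ℕ) : ColOn G ∅ m :=
  ⟨fun _ => 0, by simp, by simp⟩

theorem ColOn.indep {G : SimpleGraph V} {Z : Finset V}
    (h : ∀ v ∈ Z, ∀ w ∈ Z, ¬ G.Adj v w) : ColOn G Z 1 :=
  ⟨fun _ => 0, by simp, fun v hv w hw ha => absurd ha (h v hv w hw)⟩

theorem ColOn.union {G : SimpleGraph V} {Z1 Z2 : Finset V} {m1 m2 : ℕ} (h1 : ColOn G Z1 m1)
    (h2 : ColOn G Z2 m2) : ColOn G (Z1 ∪ Z2) (m1 + m2) := by
  obtain ⟨c1, a1, b1⟩ := h1
  obtain ⟨c2, a2, b2⟩ := h2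
  refine ⟨fun v => if v ∈ Z1 then c1 v else m1 + c2 v, ?_, ?_⟩
  · intro v hv
    by_cases h : v ∈ Z1
    · simp only [h, if_true]; have := a1 v h; omega
    · have hv2 : v ∈ Z2 := by
        rcases Finset.mem_union.1 hv with h' | h'
        · exact absurd h' h
        · exact h'
      simp only [h, if_false]; have := a2 v hv2; omega
  · intro v hv w hw ha
    by_cases hv1 : v ∈ Z1 <;> by_cases hw1 : w ∈ Z1
    · simp only [hv1, hw1, if_true]; exact b1 v hv1 w hw1 ha
    · simp only [hv1, hw1, if_true, if_false]; have := a1 v hv1; omega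
    · simp only [hv1, hw1, if_true, if_false]; have := a1 w hw1; omega
    · have hv2 : v ∈ Z2 := by
        rcases Finset.mem_union.1 hv with h' | h'
        · exact absurd h' hv1
        · exact h'
      have hw2 : w ∈ Z2 := by
        rcases Finset.mem_union.1 hw with h' | h'
        · exact absurd h' hw1
        · exact h'
      simp only [hv1, hw1, if_false]
      have := b2 v hv2 w hw2 ha
      omega

theorem ColOn.biUnion {G : SimpleGraph V} {ι : Type} (I : Finset ι) (Z : ι → Finset V) {m : ℕ}
    (h : ∀ i ∈ I, ColOn G (Z i) m) : ColOn G (I.biUnion Z) (I.card * m) := by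
  induction I using Finset.induction_on with
  | empty => simpa using ColOn.empty G 0
  | insert a s ha ih =>
    rw [Finset.biUnion_insert, Finset.card_insert_of_notMem ha, Nat.add_mul, one_mul, add_comm]
    exact (h a (Finset.mem_insert_self _ _)).union
      (ih (fun i hi => h i (Finset.mem_insert_of_mem hi)))

/-- `K` is a clique. -/
def Clq (G : SimpleGraph V) (K : Finset V) : Prop := ∀ v ∈ K, ∀ w ∈ K, v ≠ w → G.Adj v w

/-- `I` is independent. -/
def Ind (G : SimpleGraph V) (I : Finset V) : Prop := ∀ v ∈ I, ∀ w ∈ I, ¬ G.Adj v w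

/-- cliques inside `Z` have at most `d` vertices. -/
def CN (G : SimpleGraph V) (Z : Finset V) (d : ℕ) : Prop := ∀ K ⊆ Z, Clq G K → K.card ≤ d

theorem CN.mono {G : SimpleGraph V} {Z Z' : Finset V} {d : ℕ} (h : CN G Z d) (hZ : Z' ⊆ Z) :
    CN G Z' d := fun K hK hc => h K (hK.trans hZ) hc

theorem CN.eq_empty {G : SimpleGraph V} {Z : Finset V} (h : CN G Z 0) : Z = ∅ := by
  by_contra hne
  obtain ⟨v, hv⟩ := Finset.nonempty_iff_ne_empty.2 hne
  have := h {v} (by simpa using hv) (by intro a ha b hb hab; simp at ha hb; exact absurd (ha.trans hb.symm) hab)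
  simp at this

/-- `S` is the vertex set of an induced matching. -/
def IM (G : SimpleGraph V) (S : Finset V) : Prop := ∀ v ∈ S, ∃! u : V, u ∈ S ∧ G.Adj v u

/-- Adding an edge which is anticomplete to `S`. -/
theorem IM.insert {G : SimpleGraph V} {S : Finset V} (h : IM G S) {x y : V} (hxy : G.Adj x y)
    (hx : ∀ s ∈ S, ¬ G.Adj x s) (hy : ∀ s ∈ S, ¬ G.Adj y s) :
    IM G (insert x (insert y S)) ∧ x ∉ insert y S ∧ y ∉ S := by
  have hyS : y ∉ S := fun hyS => hx y hyS hxy
  have hxS : x ∉ S := fun hxS => hy x hxS hxy.symm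
  have hne : x ≠ y := hxy.ne
  refine ⟨?_, ?_, hyS⟩
  · intro v hv
    rcases Finset.mem_insert.1 hv with rfl | hv
    · refine ⟨y, ⟨by simp, hxy⟩, ?_⟩
      rintro u ⟨hu, hau⟩
      rcases Finset.mem_insert.1 hu with rfl | hu
      · exact absurd hau (G.irrefl)
      rcases Finset.mem_insert.1 hu with rfl | hu
      · rfl
      · exact absurd hau (hx u hu)
    rcases Finset.mem_insert.1 hv with rfl | hv
    · refine ⟨x, ⟨by simp, hxy.symm⟩, ?_⟩
      rintro u ⟨hu, hau⟩
      rcases Finset.mem_insert.1 hu with rfl | hu
      · rfl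
      rcases Finset.mem_insert.1 hu with rfl | hu
      · exact absurd hau (G.irrefl)
      · exact absurd hau (hy u hu)
    · have hvS : v ∈ S := hv
      obtain ⟨u, ⟨hu, hau⟩, huniq⟩ := h v hvS
      refine ⟨u, ⟨by simp [hu], hau⟩, ?_⟩
      rintro u' ⟨hu', hau'⟩
      rcases Finset.mem_insert.1 hu' with h1 | hu'
      · exact absurd (h1 ▸ hau'.symm) (hx v hvS)
      rcases Finset.mem_insert.1 hu' with h1 | hu'
      · exact absurd (h1 ▸ hau'.symm) (hy v hvS)
      · exact huniq u' ⟨hu', hau'⟩
  · intro hx'
    rcases Finset.mem_insert.1 hx' with h' | h'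
    · exact hne h'
    · exact hxS h'

/-- Wagon's theorem (weak polynomial form). -/
theorem wagon (G : SimpleGraph V) (d : ℕ) (hd : 1 ≤ d) : ∀ (k : ℕ) (Z : Finset V),
    (∀ S ⊆ Z, IM G S → S.card ≤ 2 * k) → CN G Z d → ColOn G Z ((k + 1) * d ^ (2 * k + 1)) := by
  intro k
  induction k with
  | zero =>
    intro Z hS _
    have : ColOn G Z 1 := by
      refine ColOn.indep ?_
      intro v hv w hw ha
      have h1 : IM G ({v, w} : Finset V) := by
        have := (IM.insert (G := G) (S := ∅) (fun v hv => by simp at hv) ha (by simp) (by simp)).1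
        simpa using this
      have h2 := hS {v, w} (by intro x hx; simp at hx; rcases hx with rfl | rfl <;> assumption) h1
      rw [Finset.card_pair ha.ne] at h2
      omega
    exact this.mono (Finset.Subset.refl _) (by simpa using hd)
  | succ k ih =>
    intro Z hS hZ
    -- a maximum clique
    obtain ⟨K, hK, hmax⟩ := Finset.exists_max_image (Z.powerset.filter (fun K => Clq G K))
      Finset.card ⟨∅, Finset.mem_filter.2 ⟨by simp, fun v hv => by simp at hv⟩⟩
    simp only [Finset.mem_filter, Finset.mem_powerset] at hK hmax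
    obtain ⟨hKZ, hKc⟩ := hK
    have hKd : K.card ≤ d := hZ K hKZ hKc
    -- vertices anticomplete to an edge of K
    let A : V × V → Finset V := fun p => Z.filter (fun v => ¬ G.Adj p.1 v ∧ ¬ G.Adj p.2 v)
    let B : V → Finset V := fun x => Z.filter (fun v => (v = x ∨ ¬ G.Adj x v) ∧
      ∀ y ∈ K, y ≠ x → G.Adj y v)
    have hA : ∀ p ∈ (K ×ˢ K).filter (fun p => p.1 ≠ p.2), ColOn G (A p)
        ((k + 1) * d ^ (2 * k + 1)) := by
      intro p hp
      simp only [Finset.mem_filter, Finset.mem_product] at hp
      have hadj : G.Adj p.1 p.2 := hKc _ hp.1.1 _ hp.1.2 hp.2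
      refine ih _ ?_ (hZ.mono (Finset.filter_subset _ _))
      intro S hSA hSI
      have h1 : ∀ s ∈ S, ¬ G.Adj p.1 s := fun s hs => (Finset.mem_filter.1 (hSA hs)).2.1
      have h2 : ∀ s ∈ S, ¬ G.Adj p.2 s := fun s hs => (Finset.mem_filter.1 (hSA hs)).2.2
      obtain ⟨hIM, hn1, hn2⟩ := IM.insert hSI hadj h1 h2
      have hsub : insert p.1 (insert p.2 S) ⊆ Z := by
        intro x hx
        rcases Finset.mem_insert.1 hx with rfl | hx
        · exact hKZ hp.1.1
        rcases Finset.mem_insert.1 hx with rfl | hx
        · exact hKZ hp.1.2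
        · exact (Finset.mem_filter.1 (hSA hx)).1
      have := hS _ hsub hIM
      rw [Finset.card_insert_of_notMem hn1, Finset.card_insert_of_notMem hn2] at this
      omega
    have hB : ∀ x ∈ K, ColOn G (B x) 1 := by
      intro x hx
      refine ColOn.indep ?_
      intro v hv w hw ha
      simp only [B, Finset.mem_filter] at hv hw
      -- K - x + v + w is a bigger clique
      have hvx : v ≠ x := by
        rintro rfl
        rcases hw.2.1 with rfl | h
        · exact G.irrefl ha
        · exact h ha
      have hwx : w ≠ x := by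
        rintro rfl
        rcases hv.2.1 with rfl | h
        · exact G.irrefl ha
        · exact h ha.symm
      have hvK : v ∉ K := by
        intro hvK
        rcases hv.2.1 with h | h
        · exact hvx h
        · exact h (hKc x hx v hvK (Ne.symm hvx))
      have hwK : w ∉ K := by
        intro hwK
        rcases hw.2.1 with h | h
        · exact hwx h
        · exact h (hKc x hx w hwK (Ne.symm hwx))
      let K' := insert v (insert w (K.erase x))
      have hK'Z : K' ⊆ Z := by
        intro y hy
        simp only [K', Finset.mem_insert, Finset.mem_erase] at hy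
        rcases hy with rfl | rfl | hy
        · exact hv.1
        · exact hw.1
        · exact hKZ hy.2
      have hK'c : Clq G K' := by
        intro a haK b hbK hab
        simp only [K', Finset.mem_insert, Finset.mem_erase] at haK hbK
        rcases haK with rfl | rfl | haK <;> rcases hbK with rfl | rfl | hbK
        · exact absurd rfl hab
        · exact ha
        · exact (hv.2.2 b hbK.2 hbK.1).symm
        · exact ha.symm
        · exact absurd rfl hab
        · exact (hw.2.2 b hbK.2 hbK.1).symm
        · exact hv.2.2 a haK.2 haK.1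
        · exact hw.2.2 a haK.2 haK.1
        · exact hKc a haK.2 b hbK.2 hab
      have hcard : K'.card = K.card + 1 := by
        have h1 : w ∉ K.erase x := fun h => hwK (Finset.mem_of_mem_erase h)
        have h2 : v ∉ insert w (K.erase x) := by
          intro h
          rcases Finset.mem_insert.1 h with h | h
          · exact ha.ne h
          · exact hvK (Finset.mem_of_mem_erase h)
        simp only [K']
        rw [Finset.card_insert_of_notMem h2, Finset.card_insert_of_notMem h1,
          Finset.card_erase_of_mem hx]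
        have : 1 ≤ K.card := Finset.card_pos.2 ⟨x, hx⟩
        omega
      have := hmax K' ⟨hK'Z, hK'c⟩
      omega
    have hcover : Z ⊆ ((K ×ˢ K).filter (fun p => p.1 ≠ p.2)).biUnion A ∪ K.biUnion B := by
      intro v hv
      by_cases hedge : ∃ x ∈ K, ∃ y ∈ K, x ≠ y ∧ ¬ G.Adj x v ∧ ¬ G.Adj y v
      · obtain ⟨x, hx, y, hy, hxy, h1, h2⟩ := hedge
        refine Finset.mem_union_left _ (Finset.mem_biUnion.2 ⟨(x, y), ?_, ?_⟩)
        · simp [hx, hy, hxy]
        · simp [A, hv, h1, h2]
      · refine Finset.mem_union_right _ ?_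
        by_cases hvK : v ∈ K
        · refine Finset.mem_biUnion.2 ⟨v, hvK, ?_⟩
          simp only [B, Finset.mem_filter]
          exact ⟨hv, Or.inl trivial, fun y hy hyv => hKc y hy v hvK hyv⟩
        · -- v misses some x in K, else K + v is bigger
          have : ∃ x ∈ K, ¬ G.Adj x v := by
            by_contra hno
            push Not at hno
            have h1 : insert v K ⊆ Z := by
              intro y hy
              rcases Finset.mem_insert.1 hy with rfl | hy
              · exact hv
              · exact hKZ hy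
            have h2 : Clq G (insert v K) := by
              intro a ha b hb hab
              rcases Finset.mem_insert.1 ha with ha' | ha' <;>
                rcases Finset.mem_insert.1 hb with hb' | hb'
              · exact absurd (ha'.trans hb'.symm) hab
              · rw [ha']; exact (hno b hb').symm
              · rw [hb']; exact hno a ha'
              · exact hKc a ha' b hb' hab
            have := hmax _ ⟨h1, h2⟩
            rw [Finset.card_insert_of_notMem hvK] at this
            omega
          obtain ⟨x, hx, hxv⟩ := this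
          refine Finset.mem_biUnion.2 ⟨x, hx, ?_⟩
          simp only [B, Finset.mem_filter]
          refine ⟨hv, Or.inr hxv, fun y hy hyx => ?_⟩
          by_contra hyv
          exact hedge ⟨x, hx, y, hy, fun h => hyx h.symm, hxv, hyv⟩
    have h1 := (ColOn.biUnion _ A hA).union (ColOn.biUnion K B hB)
    refine h1.mono hcover ?_
    have hc : ((K ×ˢ K).filter (fun p : V × V => p.1 ≠ p.2)).card ≤ d * d := by
      refine le_trans (Finset.card_filter_le _ _) ?_
      rw [Finset.card_product]
      exact Nat.mul_le_mul hKd hKd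
    have h2 : d ≤ d ^ (2 * (k + 1) + 1) := Nat.le_self_pow (by omega) d
    have h3 : d * d * ((k + 1) * d ^ (2 * k + 1)) = (k + 1) * d ^ (2 * (k + 1) + 1) := by ring
    calc ((K ×ˢ K).filter (fun p : V × V => p.1 ≠ p.2)).card * ((k + 1) * d ^ (2 * k + 1))
          + K.card * 1
        ≤ d * d * ((k + 1) * d ^ (2 * k + 1)) + d := by
          have := Nat.mul_le_mul_right ((k + 1) * d ^ (2 * k + 1)) hc
          omega
      _ ≤ (k + 1) * d ^ (2 * (k + 1) + 1) + d ^ (2 * (k + 1) + 1) := by rw [h3]; omega
      _ = (k + 1 + 1) * d ^ (2 * (k + 1) + 1) := by ring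

/-- Polynomial Ramsey bound for bounded independence number. -/
theorem ramsey (G : SimpleGraph V) (d : ℕ) (_hd : 1 ≤ d) : ∀ (k : ℕ) (Y : Finset V),
    (∀ I ⊆ Y, Ind G I → I.card ≤ k) → CN G Y d → Y.card ≤ k * d ^ k := by
  intro k
  induction k with
  | zero =>
    intro Y hI _
    have : Y = ∅ := by
      by_contra hne
      obtain ⟨v, hv⟩ := Finset.nonempty_iff_ne_empty.2 hne
      have := hI {v} (by simpa using hv) (by intro a ha b hb; simp at ha hb; subst ha; subst hb; exact G.irrefl)
      simp at this
    simp [this]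
  | succ k ih =>
    intro Y hI hY
    obtain ⟨K, hK, hmax⟩ := Finset.exists_max_image (Y.powerset.filter (fun K => Clq G K))
      Finset.card ⟨∅, Finset.mem_filter.2 ⟨by simp, fun v hv => by simp at hv⟩⟩
    simp only [Finset.mem_filter, Finset.mem_powerset] at hK hmax
    obtain ⟨hKY, hKc⟩ := hK
    have hKd : K.card ≤ d := hY K hKY hKc
    let B : V → Finset V := fun x => Y.filter (fun v => v ≠ x ∧ ¬ G.Adj x v)
    have hB : ∀ x ∈ K, (B x).card ≤ k * d ^ k := by
      intro x hx
      refine ih _ ?_ (hY.mono (Finset.filter_subset _ _))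
      intro I hIB hII
      have hxI : x ∉ I := fun h => (Finset.mem_filter.1 (hIB h)).2.1 rfl
      have h1 : insert x I ⊆ Y := by
        intro y hy
        rcases Finset.mem_insert.1 hy with rfl | hy
        · exact hKY hx
        · exact (Finset.mem_filter.1 (hIB hy)).1
      have h2 : Ind G (insert x I) := by
        intro a ha b hb
        rcases Finset.mem_insert.1 ha with ha' | ha' <;>
          rcases Finset.mem_insert.1 hb with hb' | hb'
        · rw [ha', hb']; exact G.irrefl
        · rw [ha']; exact (Finset.mem_filter.1 (hIB hb')).2.2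
        · rw [hb']; exact fun h => (Finset.mem_filter.1 (hIB ha')).2.2 h.symm
        · exact hII a ha' b hb'
      have := hI _ h1 h2
      rw [Finset.card_insert_of_notMem hxI] at this
      omega
    have hcover : Y ⊆ K ∪ K.biUnion B := by
      intro v hv
      by_cases hvK : v ∈ K
      · exact Finset.mem_union_left _ hvK
      · have : ∃ x ∈ K, ¬ G.Adj x v := by
          by_contra hno
          push Not at hno
          have h1 : insert v K ⊆ Y := by
            intro y hy
            rcases Finset.mem_insert.1 hy with rfl | hy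
            · exact hv
            · exact hKY hy
          have h2 : Clq G (insert v K) := by
            intro a ha b hb hab
            rcases Finset.mem_insert.1 ha with ha' | ha' <;>
              rcases Finset.mem_insert.1 hb with hb' | hb'
            · exact absurd (ha'.trans hb'.symm) hab
            · rw [ha']; exact (hno b hb').symm
            · rw [hb']; exact hno a ha'
            · exact hKc a ha' b hb' hab
          have := hmax _ ⟨h1, h2⟩
          rw [Finset.card_insert_of_notMem hvK] at this
          omega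
        obtain ⟨x, hx, hxv⟩ := this
        refine Finset.mem_union_right _ (Finset.mem_biUnion.2 ⟨x, hx, ?_⟩)
        simp only [B, Finset.mem_filter]
        exact ⟨hv, fun h => hvK (h ▸ hx), hxv⟩
    have h1 : (K.biUnion B).card ≤ K.card * (k * d ^ k) := Finset.card_biUnion_le_card_mul _ _ _ hB
    have h2 := Finset.card_le_card hcover
    have h3 := Finset.card_union_le K (K.biUnion B)
    have h4 : K.card * (k * d ^ k) ≤ d * (k * d ^ k) := Nat.mul_le_mul_right _ hKd
    have h5 : d ≤ d ^ (k + 1) := Nat.le_self_pow (by omega) d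
    calc Y.card ≤ d + d * (k * d ^ k) := by omega
      _ ≤ d ^ (k + 1) + d * (k * d ^ k) := by omega
      _ = (k + 1) * d ^ (k + 1) := by ring

end Pool.Agent.IMT
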