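import Pool.Agent.Work.ImTreewidth.Rec

set_option autoImplicit false

namespace Pool.Agent.IMT

open Finset Classical

variable {N V : Type} [PartialOrder N] [Fintype N]

/-- vertices of `Z` in both bags -/
noncomputable def Bag (Z : Finset V) (T : V → Finset N) (q t : N) : Finset V :=
  Z.filter (fun v => q ∈ T v ∧ t ∈ T v)

/-- the kernel at `q`, intersected with the bag at `t` -/
noncomputable def Ker (Z : Finset V) (T : V → Finset N) (C : N → N → Finset V) (q t : N) :
    Finset V :=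
  Z.filter (fun s => t ∈ T s ∧ ∃ t', q ≤ t' ∧ s ∈ C q t')

/-- a structured colouring -/
structure Str (G : SimpleGraph V) (Z : Finset V) (T : V → Finset N) (A B : ℕ) (c : V → ℕ)
    (C : N → N → Finset V) : Prop where
  proper : ∀ v ∈ Z, ∀ w ∈ Z, G.Adj v w → c v ≠ c w
  ne : ∀ q t, q ≤ t → (Bag Z T q t).Nonempty → (C q t).Nonempty
  sub : ∀ q t, C q t ⊆ Bag Z T q t
  clq : ∀ q t, Clq G (C q t)
  cnt : ∀ q t, q ≤ t → ((Bag Z T q t).image c).card ≤ A * (C q t).card
  ker : ∀ q t, q ≤ t → (Ker Z T C q t).card ≤ B * (C q t).card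

/-- the structure on one region -/
structure Part (G : SimpleGraph V) (Y : Finset V) (T : V → Finset N) (A B p P : ℕ) (c : V → ℕ)
    (CR CC : N → N → Finset V) : Prop where
  proper : ∀ v ∈ Y, ∀ w ∈ Y, G.Adj v w → c v ≠ c w
  ne : ∀ q t, q ≤ t → (Bag Y T q t).Nonempty → (CC q t).Nonempty
  subR : ∀ q t, CR q t ⊆ Bag Y T q t
  subC : ∀ q t, CC q t ⊆ Bag Y T q t
  clqR : ∀ q t, Clq G (CR q t)
  clqC : ∀ q t, Clq G (CC q t)
  le : ∀ q t, (CR q t).card ≤ (CC q t).card
  cnt : ∀ q t, q ≤ t → ((Bag Y T q t).image c).card ≤ A * (CR q t).card + p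
  ker : ∀ q t, q ≤ t → (Ker Y T (fun q t => CR q t ∪ CC q t) q t).card ≤ B * (CR q t).card + P

variable {G : SimpleGraph V} {T : V → Finset N} {r : V → N}

theorem mem_bag {Z : Finset V} {q t : N} {v : V} :
    v ∈ Bag Z T q t ↔ v ∈ Z ∧ q ∈ T v ∧ t ∈ T v := by
  simp [Bag]

theorem mem_ker {Z : Finset V} {C : N → N → Finset V} {q t : N} {v : V} :
    v ∈ Ker Z T C q t ↔ v ∈ Z ∧ t ∈ T v ∧ ∃ t', q ≤ t' ∧ v ∈ C q t' := by
  simp [Ker]

theorem mkPart {Z0 Y VR VF : Finset V} {A B p P : ℕ}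
    (hP : ∀ q, ∀ Y ⊆ Z0, (∀ v ∈ Y, q ∈ T v) → ∃ Y' ⊆ Y, Y'.card ≤ P ∧
      ∀ t, q ≤ t → (∃ v ∈ Y, t ∈ T v) → ∃ v ∈ Y', t ∈ T v)
    (hY : Y = VR ∪ VF) (hYZ : Y ⊆ Z0) {cR : V → ℕ}
    {CR : N → N → Finset V} (hR : Str G VR T A B cR CR) (hF : ColOn G VF p) :
    ∃ c CC, Part G Y T A B p P c CR CC := by
  obtain ⟨cF, hF1, hF2⟩ := hF
  have hVFZ : VF ⊆ Z0 := fun v hv => hYZ (hY ▸ Finset.mem_union_right _ hv)
  have hTH : ∀ q, ∃ Y' ⊆ VF.filter (fun v => q ∈ T v), Y'.card ≤ P ∧
      ∀ t, q ≤ t → (∃ v ∈ VF.filter (fun v => q ∈ T v), t ∈ T v) → ∃ v ∈ Y', t ∈ T v := by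
    intro q
    exact hP q _ ((Finset.filter_subset _ _).trans hVFZ) (fun v hv => (Finset.mem_filter.1 hv).2)
  choose TH hTH1 hTH2 hTH3 using hTH
  let CC : N → N → Finset V := fun q t => if (CR q t).Nonempty then CR q t
    else if h : ∃ s ∈ TH q, t ∈ T s then {h.choose} else ∅
  have hCC1 : ∀ q t, (CR q t).Nonempty → CC q t = CR q t := by
    intro q t h
    simp only [CC, h, if_true]
  have hCC2 : ∀ q t, ¬ (CR q t).Nonempty → ∀ s ∈ CC q t, s ∈ TH q ∧ t ∈ T s := by
    intro q t h s hs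
    simp only [CC, h, if_false] at hs
    split_ifs at hs with h2
    · rw [Finset.mem_singleton.1 hs]
      exact h2.choose_spec
    · simp at hs
  have hCC3 : ∀ q t, ¬ (CR q t).Nonempty → (∃ s ∈ TH q, t ∈ T s) → (CC q t).Nonempty := by
    intro q t h h2
    simp only [CC, h, if_false, h2, dif_pos]
    exact Finset.singleton_nonempty _
  have hCC4 : ∀ q t, ¬ (CR q t).Nonempty → Clq G (CC q t) := by
    intro q t h a ha b hb hab
    simp only [CC, h, if_false] at ha hb
    split_ifs at ha hb with h2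
    · rw [Finset.mem_singleton] at ha hb
      exact absurd (ha.trans hb.symm) hab
    · simp at ha
  refine ⟨fun v => if v ∈ VR then p + cR v else cF v, CC, ?_⟩
  refine ⟨?_, ?_, ?_, ?_, ?_, ?_, ?_, ?_, ?_⟩
  · intro v hv w hw ha
    rw [hY] at hv hw
    by_cases h1 : v ∈ VR <;> by_cases h2 : w ∈ VR
    · simp only [h1, h2, if_true]
      have := hR.proper v h1 w h2 ha
      omega
    · have hw' : w ∈ VF := (Finset.mem_union.1 hw).resolve_left h2
      simp only [h1, h2, if_true, if_false]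
      have := hF1 w hw'
      omega
    · have hv' : v ∈ VF := (Finset.mem_union.1 hv).resolve_left h1
      simp only [h1, h2, if_true, if_false]
      have := hF1 v hv'
      omega
    · have hv' : v ∈ VF := (Finset.mem_union.1 hv).resolve_left h1
      have hw' : w ∈ VF := (Finset.mem_union.1 hw).resolve_left h2
      simp only [h1, h2, if_false]
      exact hF2 v hv' w hw' ha
  · intro q t hqt hne
    by_cases h : (CR q t).Nonempty
    · rw [hCC1 q t h]; exact h
    · obtain ⟨v, hv⟩ := hne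
      rw [mem_bag, hY] at hv
      rcases Finset.mem_union.1 hv.1 with h1 | h1
      · exact absurd (hR.ne q t hqt ⟨v, mem_bag.2 ⟨h1, hv.2⟩⟩) h
      · exact hCC3 q t h (hTH3 q t hqt ⟨v, Finset.mem_filter.2 ⟨h1, hv.2.1⟩, hv.2.2⟩)
  · intro q t s hs
    have := hR.sub q t hs
    rw [mem_bag] at this ⊢
    exact ⟨hY ▸ Finset.mem_union_left _ this.1, this.2⟩
  · intro q t s hs
    by_cases h : (CR q t).Nonempty
    · rw [hCC1 q t h] at hs
      have := hR.sub q t hs
      rw [mem_bag] at this ⊢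
      exact ⟨hY ▸ Finset.mem_union_left _ this.1, this.2⟩
    · obtain ⟨h1, h2⟩ := hCC2 q t h s hs
      have h3 := Finset.mem_filter.1 (hTH1 q h1)
      exact mem_bag.2 ⟨hY ▸ Finset.mem_union_right _ h3.1, h3.2, h2⟩
  · exact hR.clq
  · intro q t
    by_cases h : (CR q t).Nonempty
    · rw [hCC1 q t h]; exact hR.clq q t
    · exact hCC4 q t h
  · intro q t
    by_cases h : (CR q t).Nonempty
    · rw [hCC1 q t h]
    · rw [Finset.not_nonempty_iff_eq_empty.1 h]; simp
  · intro q t hqt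
    have hsub : (Bag Y T q t).image (fun v => if v ∈ VR then p + cR v else cF v) ⊆
        ((Bag VR T q t).image cR).image (fun x => p + x) ∪ Finset.range p := by
      intro x hx
      obtain ⟨v, hv, rfl⟩ := Finset.mem_image.1 hx
      rw [mem_bag] at hv
      by_cases h1 : v ∈ VR
      · simp only [h1, if_true]
        exact Finset.mem_union_left _ (Finset.mem_image_of_mem _
          (Finset.mem_image_of_mem _ (mem_bag.2 ⟨h1, hv.2⟩)))
      · have hv' : v ∈ VF := (Finset.mem_union.1 (hY ▸ hv.1)).resolve_left h1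
        simp only [h1, if_false]
        exact Finset.mem_union_right _ (Finset.mem_range.2 (hF1 v hv'))
    calc _ ≤ _ := Finset.card_le_card hsub
      _ ≤ (((Bag VR T q t).image cR).image (fun x => p + x)).card + (Finset.range p).card :=
        Finset.card_union_le _ _
      _ ≤ A * (CR q t).card + p := by
        rw [Finset.card_range]
        have := Finset.card_image_le (s := (Bag VR T q t).image cR) (f := fun x => p + x)
        have := hR.cnt q t hqt
        omega
  · intro q t hqt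
    have hsub : Ker Y T (fun q t => CR q t ∪ CC q t) q t ⊆ Ker VR T CR q t ∪ TH q := by
      intro s hs
      rw [mem_ker] at hs
      obtain ⟨hsY, hts, t', hqt', hs'⟩ := hs
      have key : s ∈ CR q t' → s ∈ Ker VR T CR q t := fun h =>
        mem_ker.2 ⟨(mem_bag.1 (hR.sub q t' h)).1, hts, t', hqt', h⟩
      rcases Finset.mem_union.1 hs' with h | h
      · exact Finset.mem_union_left _ (key h)
      · by_cases h2 : (CR q t').Nonempty
        · rw [hCC1 q t' h2] at h
          exact Finset.mem_union_left _ (key h)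
        · exact Finset.mem_union_right _ (hCC2 q t' h2 s h).1
    calc _ ≤ _ := Finset.card_le_card hsub
      _ ≤ (Ker VR T CR q t).card + (TH q).card := Finset.card_union_le _ _
      _ ≤ B * (CR q t).card + P := by
        have := hR.ker q t hqt
        have := hTH2 q
        omega

/-- existence of the generation structure -/
theorem regions (hN : TreeOrd N) {Z : Finset V} (h : Sys G Z T r) : ∃ rt : N → N,
    (∀ t, rt t = t ∨ (rt t ≤ t ∧ ∃ v ∈ Z, r v < rt t ∧ t ∈ T v)) ∧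
    (∀ t s, (s = rt t ∨ (rt t ≤ s ∧ ∃ v ∈ Z, r v < rt t ∧ s ∈ T v)) → rt s = rt t) ∧
    (∀ t, ∀ v ∈ Z, t ∈ T v → rt (r v) = rt t ∨ (r v < rt t ∧ rt t ∈ T v)) ∧
    (∀ q, rt q = q → ∀ v ∈ Z, ∀ v' ∈ Z, r v < q → q ∈ T v → r v' < q → q ∈ T v' →
      rt (r v) = rt (r v')) := by
  let E : N → N → Prop := fun q t => t = q ∨ (q ≤ t ∧ ∃ v ∈ Z, r v < q ∧ t ∈ T v)
  have wf : WellFounded (fun a b : N => a < b) := wellFounded_lt
  let Rt : N → Prop := wf.fix (fun q ih => ∀ q' (hq : q' < q), ih q' hq → ¬ E q' q)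
  have hRt : ∀ q, Rt q ↔ ∀ q', q' < q → Rt q' → ¬ E q' q := by
    intro q
    have := wf.fix_eq (fun q (ih : ∀ y, y < q → Prop) => ∀ q' (hq : q' < q), ih q' hq → ¬ E q' q) q
    exact iff_of_eq this
  have hE_le : ∀ q t, E q t → q ≤ t := by
    rintro q t (rfl | h')
    · exact le_refl _
    · exact h'.1
  have hE_conv : ∀ q t s, E q t → q ≤ s → s ≤ t → E q s := by
    rintro q t s (rfl | ⟨h1, v, hv, h2, h3⟩) h4 h5
    · exact Or.inl (le_antisymm h5 h4)
    · exact Or.inr ⟨h4, v, hv, h2, h.conv v hv t h3 s (h2.le.trans h4) h5⟩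
  have hex : ∀ t, ∃ q, Rt q ∧ E q t := by
    intro t
    by_cases ht : Rt t
    · exact ⟨t, ht, Or.inl rfl⟩
    · rw [hRt] at ht
      push Not at ht
      obtain ⟨q', _, h2, h3⟩ := ht
      exact ⟨q', h2, h3⟩
  have huniq0 : ∀ q1 q2 t, Rt q1 → Rt q2 → E q1 t → E q2 t → q1 < q2 → False := by
    intro q1 q2 t h1 h2 h3 h4 h5
    exact (hRt q2).1 h2 q1 h5 h1 (hE_conv q1 t q2 h3 h5.le (hE_le _ _ h4))
  have huniq : ∀ q1 q2 t, Rt q1 → Rt q2 → E q1 t → E q2 t → q1 = q2 := by
    intro q1 q2 t h1 h2 h3 h4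
    by_contra hne
    rcases hN q1 q2 t (hE_le _ _ h3) (hE_le _ _ h4) with h5 | h5
    · exact huniq0 q1 q2 t h1 h2 h3 h4 (lt_of_le_of_ne h5 hne)
    · exact huniq0 q2 q1 t h2 h1 h4 h3 (lt_of_le_of_ne h5 (Ne.symm hne))
  choose rt hrt1 hrt2 using hex
  have hA : ∀ t s, E (rt t) s → rt s = rt t := fun t s hE =>
    huniq _ _ s (hrt1 s) (hrt1 t) (hrt2 s) hE
  have hrr : ∀ t, rt (rt t) = rt t := fun t => hA t _ (Or.inl rfl)
  have hB : ∀ t, ∀ v ∈ Z, t ∈ T v → rt (r v) = rt t ∨ (r v < rt t ∧ rt t ∈ T v) := by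
    intro t v hv ht
    have h1 := h.le v hv t ht
    have h2 := hE_le _ _ (hrt2 t)
    rcases hN (rt t) (r v) t h2 h1 with h3 | h3
    · exact Or.inl (hA t _ (hE_conv _ t _ (hrt2 t) h3 h1))
    · rcases h3.eq_or_lt with h4 | h4
      · left; rw [h4]; exact hrr t
      · exact Or.inr ⟨h4, h.conv v hv t ht _ h3 h2⟩
  refine ⟨rt, ?_, hA, hB, ?_⟩
  · intro t
    rcases hrt2 t with h' | h'
    · exact Or.inl h'.symm
    · exact Or.inr h'
  · -- uniqueness of the parent region
    have key : ∀ q, rt q = q → ∀ v ∈ Z, ∀ v' ∈ Z, r v < q → q ∈ T v → r v' < q → q ∈ T v' →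
        r v ≤ r v' → rt (r v) = rt (r v') := by
      intro q hq v hv v' hv' h1 h2 h3 h4 h5
      have hv1 : r v' ∈ T v := h.conv v hv q h2 _ h5 h3.le
      rcases hB (r v') v hv hv1 with h6 | ⟨h6, h7⟩
      · exact h6
      · exfalso
        -- q is in the region of rt (r v')
        have hle : rt (r v') ≤ r v' := hE_le _ _ (hrt2 _)
        have hEq : E (rt (r v')) q := Or.inr ⟨hle.trans h3.le, v, hv, h6, h2⟩
        have := hA (r v') q hEq
        rw [hq] at this
        rw [← this] at hle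
        exact absurd (lt_of_le_of_lt hle h3) (lt_irrefl _)
    intro q hq v hv v' hv' h1 h2 h3 h4
    rcases hN (r v) (r v') q h1.le h3.le with h5 | h5
    · exact key q hq v hv v' hv' h1 h2 h3 h4 h5
    · exact (key q hq v' hv' v hv h3 h4 h1 h2 h5).symm

end Pool.Agent.IMT
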