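import Pool.Agent.Work.ImTreewidth.Step

set_option autoImplicit false

namespace Pool.Agent.IMT

open Finset Classical

section
variable {N V : Type} [PartialOrder N] [Fintype N]
variable {G : SimpleGraph V} {T : V → Finset N} {r : V → N}

theorem claim (hN : TreeOrd N) {Z0 : Finset V} (h0 : Sys G Z0 T r) {b P w D : ℕ}
    (hb : ∀ u ∈ Z0, ColOn G (Fk G Z0 T u) b)
    (hP : ∀ q, ∀ Y ⊆ Z0, (∀ v ∈ Y, q ∈ T v) → ∃ Y' ⊆ Y, Y'.card ≤ P ∧
      ∀ t, q ≤ t → (∃ v ∈ Y, t ∈ T v) → ∃ v ∈ Y', t ∈ T v)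
    (hw : ∀ t, ColOn G (Z0.filter (fun v => t ∈ T v)) w) : ∀ d, d ≤ D →
    ∀ Z ⊆ Z0, CN G Z d → ∃ c C,
      Str G Z T (2 * d * (w + 2 * P * D * D * b)) (2 * d * P) c C := by
  intro d
  induction d with
  | zero =>
    intro _ Z _ hCN
    have hZ : Z = ∅ := hCN.eq_empty
    subst hZ
    refine ⟨fun _ => 0, fun _ _ => ∅, ?_, ?_, ?_, ?_, ?_, ?_⟩
    · intro v hv; simp at hv
    · intro q t _ hne; simp [Bag] at hne
    · intro q t; simp
    · intro q t v hv; simp at hv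
    · intro q t _; simp [Bag]
    · intro q t _; simp [Ker]
  | succ d ih =>
    intro hd
    exact step hN h0 hb hP hw d hd (ih (by omega))

theorem colOn_main (hN : TreeOrd N) {Z0 : Finset V} (h0 : Sys G Z0 T r) {b P w D : ℕ}
    (hb : ∀ u ∈ Z0, ColOn G (Fk G Z0 T u) b)
    (hP : ∀ q, ∀ Y ⊆ Z0, (∀ v ∈ Y, q ∈ T v) → ∃ Y' ⊆ Y, Y'.card ≤ P ∧
      ∀ t, q ≤ t → (∃ v ∈ Y, t ∈ T v) → ∃ v ∈ Y', t ∈ T v)
    (hw : ∀ t, ColOn G (Z0.filter (fun v => t ∈ T v)) w) (hCN : CN G Z0 D) :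
    ColOn G Z0 (2 * D * (w + 2 * P * D * D * b) * D) := by
  obtain ⟨c, C, hS⟩ := claim hN h0 hb hP hw D (le_refl _) Z0 (Finset.Subset.refl _) hCN
  refine local_global hN h0 c _ hS.proper ?_
  intro t
  have h1 := hS.cnt t t (le_refl t)
  have h2 : Bag Z0 T t t = Z0.filter (fun v => t ∈ T v) := by
    ext v; simp [Bag]
  rw [h2] at h1
  have h3 : (C t t).card ≤ D := by
    refine hCN _ ?_ (hS.clq t t)
    intro v hv
    exact (mem_bag.1 (hS.sub t t hv)).1
  exact h1.trans (Nat.mul_le_mul_left _ h3)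

end

theorem main_poly : ∀ k : ℕ, ∃ a e : ℕ, ∀ (N V : Type) [PartialOrder N] [Fintype N]
    (_ : TreeOrd N) (G : SimpleGraph V) (Z : Finset V) (T : V → Finset N) (r : V → N) (d : ℕ),
    1 ≤ d → Sys G Z T r → Mu G Z T k → CN G Z d → ColOn G Z (a * d ^ e) := by
  intro k
  induction k with
  | zero =>
    refine ⟨1, 0, ?_⟩
    intro N V _ _ hN G Z T r d hd hS hM hC
    have : ColOn G Z 1 := by
      refine ColOn.indep ?_
      intro v hv w hw ha
      obtain ⟨t, h1, h2⟩ := hS.edge v hv w hw ha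
      have hIM : IM G ({v, w} : Finset V) := by
        have := (IM.insert (G := G) (S := ∅) (fun v hv => by simp at hv) ha (by simp) (by simp)).1
        simpa using this
      have h3 := hM t {v, w} (by intro x hx; simp at hx; rcases hx with rfl | rfl <;> assumption)
        hIM (by
          intro x hx
          simp only [Finset.mem_insert, Finset.mem_singleton] at hx
          rcases hx with rfl | rfl
          · exact ⟨w, by simp, ha, Or.inl h1⟩
          · exact ⟨v, by simp, ha.symm, Or.inl h2⟩)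
      rw [Finset.card_pair ha.ne] at h3
      omega
    exact this.mono (Finset.Subset.refl _) (by simp)
  | succ k ih =>
    obtain ⟨a, e, ih⟩ := ih
    refine ⟨2 * ((k + 2) + 2 * (k + 1) * (a + (k + 2))), k + 5 + e + (2 * k + 3), ?_⟩
    intro N V _ _ hN G Z T r d hd hS hM hC
    obtain ⟨T', hS', hM', hT'⟩ := exists_tight (Z := Z) (r := r) _ T rfl hS hM
    have hw : ∀ t, ColOn G (Z.filter (fun v => t ∈ T' v)) ((k + 1 + 1) * d ^ (2 * (k + 1) + 1)) := by
      intro t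
      refine wagon G d hd (k + 1) _ ?_ (hC.mono (Finset.filter_subset _ _))
      intro S hSZ hSI
      refine hM' t S (hSZ.trans (Finset.filter_subset _ _)) hSI ?_
      intro v hv
      obtain ⟨u, ⟨hu, hau⟩, _⟩ := hSI v hv
      exact ⟨u, hu, hau, Or.inl (Finset.mem_filter.1 (hSZ hv)).2⟩
    have hb : ∀ u ∈ Z, ColOn G (Fk G Z T' u) (a * d ^ e + (k + 1 + 1) * d ^ (2 * (k + 1) + 1)) := by
      intro u hu
      exact fake_col hN hS' hM' hT' hC hw
        (fun Z' T'' r' h1 h2 h3 => ih N V hN G Z' T'' r' d hd h1 h2 h3) u hu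
    have hP := fun q Y hY hYq => thin hN hS' (k := k + 1) (by omega) hd hM' hT' hC q Y hY hYq
    have := colOn_main hN hS' hb hP hw hC
    refine this.mono (Finset.Subset.refl _) ?_
    -- numerical bound
    have hpow : ∀ i j : ℕ, i ≤ j → d ^ i ≤ d ^ j := fun i j hij => Nat.pow_le_pow_right hd hij
    set e1 := 2 * k + 3 with he1
    have e1' : 2 * (k + 1) + 1 = e1 := by omega
    rw [e1']
    have hb1 : a * d ^ e + (k + 1 + 1) * d ^ e1 ≤ (a + (k + 2)) * d ^ (e + e1) := by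
      have h1 := Nat.mul_le_mul_left a (hpow e (e + e1) (by omega))
      have h2 := Nat.mul_le_mul_left (k + 2) (hpow e1 (e + e1) (by omega))
      nlinarith
    have hb2 : 2 * ((k + 1) * d ^ (k + 1)) * d * d * (a * d ^ e + (k + 1 + 1) * d ^ e1) ≤
        2 * (k + 1) * (a + (k + 2)) * d ^ (k + 3 + e + e1) := by
      calc _ ≤ 2 * ((k + 1) * d ^ (k + 1)) * d * d * ((a + (k + 2)) * d ^ (e + e1)) :=
            Nat.mul_le_mul_left _ hb1
        _ = _ := by ring
    have hb3 : (k + 1 + 1) * d ^ e1 ≤ (k + 2) * d ^ (k + 3 + e + e1) :=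
      Nat.mul_le_mul_left (k + 2) (hpow _ _ (by omega))
    calc 2 * d * ((k + 1 + 1) * d ^ e1 + 2 * ((k + 1) * d ^ (k + 1)) * d * d *
          (a * d ^ e + (k + 1 + 1) * d ^ e1)) * d
        ≤ 2 * d * ((k + 2) * d ^ (k + 3 + e + e1) +
            2 * (k + 1) * (a + (k + 2)) * d ^ (k + 3 + e + e1)) * d := by
          refine Nat.mul_le_mul_right _ (Nat.mul_le_mul_left _ ?_)
          omega
      _ = 2 * ((k + 2) + 2 * (k + 1) * (a + (k + 2))) * d ^ (k + 5 + e + e1) := by ring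

end Pool.Agent.IMT
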