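import Pool.Agent.Work.ImTreewidth.System

set_option autoImplicit false

namespace Pool.Agent.IMT

open Finset Classical

variable {N V : Type} [PartialOrder N] [Finite N]

/-- building a function along a tree -/
theorem tree_rec {β : Type} (p : N → N) (Good : N → β → Prop) (Link : N → β → β → Prop)
    (h0 : ∀ t, ¬ p t < t → ∃ y, Good t y)
    (h1 : ∀ t, p t < t → ∀ x, Good (p t) x → ∃ y, Good t y ∧ Link t x y) :
    ∃ f : N → β, ∀ t, Good t (f t) ∧ (p t < t → Link t (f (p t)) (f t)) := by
  have wf : WellFounded (fun a b : N => a < b) := wellFounded_lt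
  let F : (t : N) → ((s : N) → s < t → {y : β // Good s y}) → {y : β // Good t y} :=
    fun t ih => if h : p t < t then
      ⟨(h1 t h (ih (p t) h).1 (ih (p t) h).2).choose,
        (h1 t h (ih (p t) h).1 (ih (p t) h).2).choose_spec.1⟩
    else ⟨(h0 t h).choose, (h0 t h).choose_spec⟩
  let g : (t : N) → {y : β // Good t y} := wf.fix F
  refine ⟨fun t => (g t).1, fun t => ⟨(g t).2, fun h => ?_⟩⟩
  have he : g t = F t (fun s _ => g s) := wf.fix_eq F t
  have he2 : (g t).1 = (h1 t h (g (p t)).1 (g (p t)).2).choose := by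
    rw [he]
    simp only [F, h, dif_pos]
  show Link t (g (p t)).1 (g t).1
  rw [he2]
  exact (h1 t h (g (p t)).1 (g (p t)).2).choose_spec.2

theorem exists_parent (hN : TreeOrd N) : ∃ p : N → N, ∀ t,
    ((∃ s, s < t) → p t < t ∧ ∀ s, s < t → s ≤ p t) ∧ (p t < t ∨ p t = t) := by
  have : ∀ t : N, ∃ q : N, ((∃ s, s < t) → q < t ∧ ∀ s, s < t → s ≤ q) ∧ (q < t ∨ q = t) := by
    intro t
    by_cases h : ∃ s, s < t
    · have hfin : (Set.Iio t).Finite := Set.toFinite _
      obtain ⟨m, hm⟩ := hfin.exists_maximal h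
      refine ⟨m, fun _ => ⟨hm.prop, fun s hs => ?_⟩, Or.inl hm.prop⟩
      rcases hN s m t hs.le (le_of_lt hm.prop) with h' | h'
      · exact h'
      · exact hm.le_of_ge hs h'
    · exact ⟨t, fun h' => absurd h' h, Or.inr rfl⟩
  choose p hp using this
  exact ⟨p, hp⟩

theorem ext_inj (A D : Finset ℕ) (x : ℕ → ℕ) (g : ℕ) (hx : ∀ a ∈ A, x a < g)
    (hinj : Set.InjOn x (A : Set ℕ)) (hdis : Disjoint A D) (hc : A.card + D.card ≤ g) :
    ∃ y : ℕ → ℕ, (∀ a ∈ A, y a = x a) ∧ (∀ a ∈ A ∪ D, y a < g) ∧
      Set.InjOn y ((A ∪ D : Finset ℕ) : Set ℕ) := by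
  induction D using Finset.induction_on with
  | empty => exact ⟨x, fun _ _ => rfl, by simpa using hx, by simpa using hinj⟩
  | insert e D he ih =>
    rw [Finset.card_insert_of_notMem he] at hc
    have hdis' : Disjoint A D := Finset.disjoint_of_subset_right (Finset.subset_insert _ _) hdis
    have heA : e ∉ A := fun h => (Finset.disjoint_left.1 hdis h) (Finset.mem_insert_self _ _)
    obtain ⟨y, h1, h2, h3⟩ := ih hdis' (by omega)
    have hcard : ((A ∪ D).image y).card < (Finset.range g).card := by
      rw [Finset.card_range]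
      calc ((A ∪ D).image y).card ≤ (A ∪ D).card := Finset.card_image_le
        _ ≤ A.card + D.card := Finset.card_union_le _ _
        _ < g := by omega
    obtain ⟨m, hm, hm2⟩ := Finset.exists_mem_notMem_of_card_lt_card hcard
    rw [Finset.mem_range] at hm
    have heAD : e ∉ A ∪ D := by
      intro h
      rcases Finset.mem_union.1 h with h | h
      · exact heA h
      · exact he h
    refine ⟨Function.update y e m, ?_, ?_, ?_⟩
    · intro a ha
      have hae : a ≠ e := by rintro rfl; exact heA ha
      rw [Function.update_of_ne hae]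
      exact h1 a ha
    · intro a ha
      by_cases hae : a = e
      · subst hae; rw [Function.update_self]; exact hm
      · rw [Function.update_of_ne hae]
        refine h2 a ?_
        simp only [Finset.mem_union, Finset.mem_insert] at ha ⊢
        tauto
    · intro a ha b hb hab
      have key : ∀ c, c ∈ A ∪ insert e D → c ≠ e → c ∈ A ∪ D := by
        intro c hc' hce
        simp only [Finset.mem_union, Finset.mem_insert] at hc' ⊢
        tauto
      by_cases hae : a = e <;> by_cases hbe : b = e
      · rw [hae, hbe]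
      · exfalso
        subst hae
        rw [Function.update_self, Function.update_of_ne hbe] at hab
        exact hm2 (hab ▸ Finset.mem_image_of_mem y (key b hb hbe))
      · exfalso
        subst hbe
        rw [Function.update_self, Function.update_of_ne hae] at hab
        exact hm2 (hab ▸ Finset.mem_image_of_mem y (key a ha hae))
      · rw [Function.update_of_ne hae, Function.update_of_ne hbe] at hab
        exact h3 (key a ha hae) (key b hb hbe) hab

variable {G : SimpleGraph V} {Z : Finset V} {T : V → Finset N} {r : V → N}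

/-- A proper colouring with at most `g` colours in each bag can be turned into a `g`-colouring. -/
theorem local_global (hN : TreeOrd N) (h : Sys G Z T r) (c : V → ℕ) (g : ℕ)
    (hc : ∀ v ∈ Z, ∀ w ∈ Z, G.Adj v w → c v ≠ c w)
    (hg : ∀ t, ((Z.filter (fun v => t ∈ T v)).image c).card ≤ g) : ColOn G Z g := by
  obtain ⟨p, hp⟩ := exists_parent hN
  let Cs : N → Finset ℕ := fun t => (Z.filter (fun v => t ∈ T v)).image c
  obtain ⟨f, hf⟩ := tree_rec (β := ℕ → ℕ) p
    (fun t y => (∀ a ∈ Cs t, y a < g) ∧ Set.InjOn y (Cs t : Set ℕ))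
    (fun t x y => ∀ v ∈ Z, t ∈ T v → p t ∈ T v → y (c v) = x (c v))
    (by
      intro t _
      obtain ⟨y, _, h2, h3⟩ := ext_inj ∅ (Cs t) id g (by simp) (by simp) (by simp)
        (by simpa using hg t)
      rw [Finset.empty_union] at h2 h3
      exact ⟨y, h2, h3⟩)
    (by
      intro t _ x hx
      obtain ⟨hx1, hx2⟩ := hx
      let A : Finset ℕ := (Z.filter (fun v => t ∈ T v ∧ p t ∈ T v)).image c
      have hA1 : A ⊆ Cs t := by
        refine Finset.image_subset_image ?_
        intro v hv
        simp only [Finset.mem_filter] at hv ⊢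
        exact ⟨hv.1, hv.2.1⟩
      have hA2 : A ⊆ Cs (p t) := by
        refine Finset.image_subset_image ?_
        intro v hv
        simp only [Finset.mem_filter] at hv ⊢
        exact ⟨hv.1, hv.2.2⟩
      obtain ⟨y, h1, h2, h3⟩ := ext_inj A (Cs t \ A) x g (fun a ha => hx1 a (hA2 ha))
        (hx2.mono (by exact_mod_cast hA2)) Finset.disjoint_sdiff (by
          have := Finset.card_sdiff_add_card_eq_card hA1
          have := hg t
          simp only [Cs] at *
          omega)
      rw [Finset.union_sdiff_of_subset hA1] at h2 h3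
      refine ⟨y, ⟨h2, h3⟩, ?_⟩
      intro v hv h4 h5
      exact h1 _ (Finset.mem_image_of_mem c (Finset.mem_filter.2 ⟨hv, h4, h5⟩)))
  -- consistency along subtrees
  have hcons : ∀ v ∈ Z, ∀ t ∈ T v, f t (c v) = f (r v) (c v) := by
    intro v hv t
    induction t using WellFoundedLT.induction with
    | _ t ih =>
      intro ht
      by_cases he : t = r v
      · rw [he]
      · have hlt : r v < t := lt_of_le_of_ne (h.le v hv t ht) (Ne.symm he)
        obtain ⟨h1, h2⟩ := (hp t).1 ⟨_, hlt⟩
        have h3 : p t ∈ T v := h.conv v hv t ht _ (h2 _ hlt) h1.le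
        rw [(hf t).2 h1 v hv ht h3]
        exact ih _ h1 h3
  refine ⟨fun v => f (r v) (c v), ?_, ?_⟩
  · intro v hv
    exact (hf (r v)).1.1 _ (Finset.mem_image_of_mem c (Finset.mem_filter.2 ⟨hv, h.mem v hv⟩))
  · intro v hv w hw ha he
    obtain ⟨t, h1, h2⟩ := h.edge v hv w hw ha
    simp only at he
    rw [← hcons v hv t h1, ← hcons w hw t h2] at he
    exact hc v hv w hw ha ((hf t).1.2
      (by exact_mod_cast Finset.mem_image_of_mem c (Finset.mem_filter.2 ⟨hv, h1⟩))
      (by exact_mod_cast Finset.mem_image_of_mem c (Finset.mem_filter.2 ⟨hw, h2⟩)) he)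

end Pool.Agent.IMT
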