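import Pool.Agent.Work.ImTreewidth.Claim

set_option autoImplicit false

namespace Pool.Agent.IMT

open Finset Classical

variable {N V : Type} [PartialOrder N] [Fintype N]
variable {G : SimpleGraph V} {T : V → Finset N} {r : V → N}

/-- pairwise intersecting subtrees have a common node, the top of one of them -/
theorem common_top (hN : TreeOrd N) {Z K : Finset V} (h : Sys G Z T r) (hK : K ⊆ Z)
    (hc : Clq G K) (hne : K.Nonempty) : ∃ v0 ∈ K, ∀ v ∈ K, r v0 ∈ T v := by
  obtain ⟨m, hm⟩ := (K.image r).exists_maximal (hne.image r)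
  obtain ⟨v0, hv0, rfl⟩ := Finset.mem_image.1 hm.prop
  refine ⟨v0, hv0, fun v hv => ?_⟩
  by_cases he : v = v0
  · rw [he]; exact h.mem v0 (hK hv0)
  · have hi := h.edge v (hK hv) v0 (hK hv0) (hc v hv v0 hv0 he)
    rcases h.comparable hN (hK hv) (hK hv0) hi with ⟨_, h2⟩ | ⟨h1, h2⟩
    · exact h2
    · have := hm.le_of_ge (Finset.mem_image_of_mem r hv) h1
      have e : r v = r v0 := le_antisymm this h1
      rw [← e]; exact h.mem v (hK hv)

theorem bag_eq_of_card {A : Finset V} {n : ℕ} (h : A = ∅) : A.card ≤ n := by simp [h]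

theorem step (hN : TreeOrd N) {Z0 : Finset V} (h0 : Sys G Z0 T r) {b P w D : ℕ}
    (hb : ∀ u ∈ Z0, ColOn G (Fk G Z0 T u) b)
    (hP : ∀ q, ∀ Y ⊆ Z0, (∀ v ∈ Y, q ∈ T v) → ∃ Y' ⊆ Y, Y'.card ≤ P ∧
      ∀ t, q ≤ t → (∃ v ∈ Y, t ∈ T v) → ∃ v ∈ Y', t ∈ T v)
    (hw : ∀ t, ColOn G (Z0.filter (fun v => t ∈ T v)) w) (d : ℕ) (hd : d + 1 ≤ D)
    (ih : ∀ Z ⊆ Z0, CN G Z d → ∃ c C,
      Str G Z T (2 * d * (w + 2 * P * D * D * b)) (2 * d * P) c C) :
    ∀ Z ⊆ Z0, CN G Z (d + 1) → ∃ c C,
      Str G Z T (2 * (d + 1) * (w + 2 * P * D * D * b)) (2 * (d + 1) * P) c C := by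
  intro Z hZ hCN
  have h : Sys G Z T r := h0.mono hZ
  set p := w + 2 * P * D * D * b with hp
  obtain ⟨rt, hE0, hE, hB, hU⟩ := regions hN h
  have hrr : ∀ t, rt (rt t) = rt t := fun t => hE t _ (Or.inl rfl)
  let Vp : N → Finset V := fun q => Z.filter (fun v => rt (r v) = q)
  have hVp : ∀ q v, v ∈ Vp q ↔ v ∈ Z ∧ rt (r v) = q := by intro q v; simp [Vp]
  let pr : N → N := fun q => if hx : ∃ v ∈ Z, r v < q ∧ q ∈ T v then rt (r hx.choose) else q
  have hrle : ∀ t, rt t ≤ t := by
    intro t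
    rcases hE0 t with h' | h'
    · exact h'.le
    · exact h'.1
  -- properties of pr
  have hpr1 : ∀ q, rt q = q → ∀ v ∈ Z, r v < q → q ∈ T v → rt (r v) = pr q := by
    intro q hq v hv h1 h2
    have hx : ∃ v ∈ Z, r v < q ∧ q ∈ T v := ⟨v, hv, h1, h2⟩
    simp only [pr, hx, dif_pos]
    exact hU q hq v hv _ hx.choose_spec.1 h1 h2 hx.choose_spec.2.1 hx.choose_spec.2.2
  have hpr2 : ∀ q, pr q < q → ∃ v ∈ Z, r v < q ∧ q ∈ T v := by
    intro q hq
    by_contra hx
    simp only [pr, hx, dif_neg, not_false_iff] at hq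
    exact lt_irrefl _ hq
  have hpr3 : ∀ q, (∃ v ∈ Z, r v < q ∧ q ∈ T v) → pr q < q := by
    intro q hx
    simp only [pr, hx, dif_pos]
    exact lt_of_le_of_lt (hrle _) hx.choose_spec.2.1
  let β := (V → ℕ) × (N → N → Finset V) × (N → N → Finset V)
  let Good : N → β → Prop := fun q y => Part G (Vp q) T (2 * d * p) (2 * d * P) p P y.1 y.2.1 y.2.2
  let Link : N → β → β → Prop := fun q x y => rt q = q → ∀ q' t, q ≤ q' → q' ≤ t →
    rt t = q → ∀ s ∈ x.2.2 q t, ∀ v ∈ y.2.1 q' t, G.Adj s v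
  -- parts without a remaining vertex
  have hempty : ∃ c C, Str G (∅ : Finset V) T (2 * d * p) (2 * d * P) c C := by
    refine ih ∅ (by simp) ?_
    intro K hK _
    rw [Finset.subset_empty.1 hK]; simp
  obtain ⟨f, hf⟩ := tree_rec (β := β) pr Good Link
    (by
      intro q hq
      obtain ⟨cR, CR, hR⟩ := hempty
      have hcol : ColOn G (Vp q) p := by
        refine (hw q).mono ?_ (by omega)
        intro v hv
        rw [hVp] at hv
        rw [Finset.mem_filter]
        refine ⟨hZ hv.1, ?_⟩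
        rcases hE0 (r v) with h' | h'
        · rw [hv.2] at h'
          rw [h']; exact h.mem v hv.1
        · exfalso
          rw [hv.2] at h'
          obtain ⟨h1, u, hu, h2, h3⟩ := h'
          exact hq (hpr3 q ⟨u, hu, h2, h.conv u hu _ h3 q h2.le h1⟩)
      obtain ⟨c, CC, hpart⟩ := mkPart hP (Y := Vp q) (VR := ∅) (VF := Vp q) (by simp)
        ((Finset.filter_subset _ _).trans hZ) hR hcol
      exact ⟨(c, CR, CC), hpart⟩)
    (by
      intro q hq x hx
      by_cases hrq : rt q = q
      swap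
      · obtain ⟨cR, CR, hR⟩ := hempty
        have hVe : Vp q = ∅ := by
          rw [Finset.eq_empty_iff_forall_notMem]
          intro v hv
          rw [hVp] at hv
          exact hrq (by rw [← hv.2]; exact hrr _)
        obtain ⟨c, CC, hpart⟩ := mkPart hP (Y := Vp q) (VR := ∅) (VF := ∅) (by simp [hVe])
          (by simp [hVe]) hR (ColOn.empty G p)
        exact ⟨(c, CR, CC), hpart, fun h' => absurd h' hrq⟩
      · have hx' : Part G (Vp (pr q)) T (2 * d * p) (2 * d * P) p P x.1 x.2.1 x.2.2 := hx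
        let S := Ker (Vp (pr q)) T (fun q t => x.2.1 q t ∪ x.2.2 q t) q q
        have hVpZ : ∀ q, Vp q ⊆ Z := fun q => Finset.filter_subset _ _
        have hScard : S.card ≤ 2 * P * D * D := by
          have h1 := hx'.ker q q (le_refl q)
          have h2 : (x.2.1 q q).card ≤ d + 1 := by
            refine hCN _ ?_ (hx'.clqR q q)
            intro v hv
            exact hVpZ _ (mem_bag.1 (hx'.subR q q hv)).1
          calc S.card ≤ 2 * d * P * (x.2.1 q q).card + P := h1
            _ ≤ 2 * d * P * (d + 1) + P := by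
              have := Nat.mul_le_mul_left (2 * d * P) h2
              omega
            _ ≤ 2 * P * (d + 1) * (d + 1) := by nlinarith
            _ ≤ 2 * P * D * D := Nat.mul_le_mul (Nat.mul_le_mul_left _ hd) hd
        let VF := (Vp q).filter (fun v => ∃ s ∈ S, ¬ G.Adj s v ∧ ∃ t, t ∈ T v ∧ t ∈ T s)
        let VR := (Vp q) \ VF
        have hVFsub : VF ⊆ Vp q := Finset.filter_subset _ _
        have hSprop : ∀ s ∈ S, s ∈ Vp (pr q) ∧ q ∈ T s := by
          intro s hs
          have := mem_ker.1 hs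
          exact ⟨this.1, this.2.1⟩
        have hcolF : ColOn G VF p := by
          have h1 : ColOn G (S.biUnion (Fk G Z0 T)) (S.card * b) := by
            refine ColOn.biUnion S _ ?_
            intro s hs
            exact hb s (hZ (hVpZ _ (hSprop s hs).1))
          refine h1.mono ?_ ?_
          · intro v hv
            obtain ⟨hv1, s, hs, h2, h3⟩ := Finset.mem_filter.1 hv
            refine Finset.mem_biUnion.2 ⟨s, hs, ?_⟩
            rw [Fk, Finset.mem_filter]
            refine ⟨hZ (hVpZ _ hv1), ?_, h2, h3⟩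
            rintro rfl
            have e1 := ((hVp _ _).1 hv1).2
            have e2 := ((hVp _ _).1 (hSprop _ hs).1).2
            rw [e1] at e2
            exact absurd e2 (ne_of_gt hq)
          · have := Nat.mul_le_mul_right b hScard
            omega
        have hCNR : CN G VR d := by
          intro K hK hKc
          by_cases hne : K.Nonempty
          swap
          · rw [Finset.not_nonempty_iff_eq_empty.1 hne]; simp
          have hKV : K ⊆ Vp q := hK.trans Finset.sdiff_subset
          obtain ⟨v0, hv0, htop⟩ := common_top hN h (hKV.trans (hVpZ q)) hKc hne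
          set t := r v0 with ht
          have hv0q : rt t = q := ((hVp _ _).1 (hKV hv0)).2
          have hqt : q ≤ t := hv0q ▸ hrle t
          -- some parent vertex is in bag t
          have hex : ∃ v1 ∈ Z, r v1 < q ∧ q ∈ T v1 ∧ t ∈ T v1 := by
            rcases hE0 t with h' | ⟨h1, u, hu, h2, h3⟩
            · obtain ⟨v1, hv1, h1, h2⟩ := hpr2 q hq
              rw [hv0q] at h'
              exact ⟨v1, hv1, h1, h2, h' ▸ h2⟩
            · rw [hv0q] at h1 h2
              exact ⟨u, hu, h2, h.conv u hu t h3 q h2.le h1, h3⟩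
          obtain ⟨v1, hv1, h1, h2, h3⟩ := hex
          have hv1p : v1 ∈ Vp (pr q) := (hVp _ _).2 ⟨hv1, hpr1 q hrq v1 hv1 h1 h2⟩
          have hC1 : (x.2.2 q t).Nonempty := hx'.ne q t hqt ⟨v1, mem_bag.2 ⟨hv1p, h2, h3⟩⟩
          have hC1S : ∀ s ∈ x.2.2 q t, s ∈ S ∧ t ∈ T s := by
            intro s hs
            have h4 := mem_bag.1 (hx'.subC q t hs)
            exact ⟨mem_ker.2 ⟨h4.1, h4.2.1, t, hqt, Finset.mem_union_right _ hs⟩, h4.2.2⟩
          have hadj : ∀ s ∈ x.2.2 q t, ∀ v ∈ K, G.Adj s v := by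
            intro s hs v hv
            by_contra hna
            have hvR := Finset.mem_sdiff.1 (hK hv)
            exact hvR.2 (Finset.mem_filter.2 ⟨hvR.1, s, (hC1S s hs).1, hna, t, htop v hv,
              (hC1S s hs).2⟩)
          have hdisj : Disjoint (x.2.2 q t) K := by
            rw [Finset.disjoint_left]
            intro a ha ha'
            exact G.irrefl (hadj a ha a ha')
          have hcl : Clq G (x.2.2 q t ∪ K) := by
            intro a ha c hc' hac
            rcases Finset.mem_union.1 ha with h4 | h4 <;> rcases Finset.mem_union.1 hc' with h5 | h5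
            · exact hx'.clqC q t a h4 c h5 hac
            · exact hadj a h4 c h5
            · exact (hadj c h5 a h4).symm
            · exact hKc a h4 c h5 hac
          have := hCN (x.2.2 q t ∪ K) (by
            intro a ha
            rcases Finset.mem_union.1 ha with h4 | h4
            · exact hVpZ _ (mem_bag.1 (hx'.subC q t h4)).1
            · exact hVpZ q (hKV h4)) hcl
          rw [Finset.card_union_of_disjoint hdisj] at this
          have := Finset.card_pos.2 hC1
          omega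
        have hVRZ : VR ⊆ Z0 := (Finset.sdiff_subset.trans (hVpZ q)).trans hZ
        obtain ⟨cR, CR, hR⟩ := ih VR hVRZ hCNR
        obtain ⟨c, CC, hpart⟩ := mkPart hP (Y := Vp q) (VR := VR) (VF := VF)
          (by rw [Finset.sdiff_union_of_subset hVFsub]) ((hVpZ q).trans hZ) hR hcolF
        refine ⟨(c, CR, CC), hpart, ?_⟩
        intro _ q' t hqq' hq't _ s hs v hv
        have hs' := mem_bag.1 (hx'.subC q t hs)
        have hv' := mem_bag.1 (hR.sub q' t hv)
        by_contra hna
        have hvR := Finset.mem_sdiff.1 hv'.1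
        refine hvR.2 (Finset.mem_filter.2 ⟨hvR.1, s, mem_ker.2 ⟨hs'.1, hs'.2.1, t,
          hqq'.trans hq't, Finset.mem_union_right _ hs⟩, hna, t, hv'.2.2, hs'.2.2⟩))
  -- final assembly
  let idx : N → ℕ := fun q => (Fintype.equivFin N q).val
  have hidx : ∀ a b, idx a = idx b → a = b := by
    intro a b hab
    exact (Fintype.equivFin N).injective (Fin.ext hab)
  let c : V → ℕ := fun v => Nat.pair (idx (rt (r v))) ((f (rt (r v))).1 v)
  let C : N → N → Finset V := fun q' t =>
    if q' ≤ t ∧ rt t = rt q' ∧ pr (rt q') < rt q' then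
      (f (pr (rt q'))).2.2 (rt q') t ∪ (f (rt q')).2.1 q' t
    else (f (rt q')).2.2 q' t
  have hVpZ : ∀ q, Vp q ⊆ Z := fun q => Finset.filter_subset _ _
  have hC1 : ∀ q' t, q' ≤ t → rt t = rt q' → pr (rt q') < rt q' →
      C q' t = (f (pr (rt q'))).2.2 (rt q') t ∪ (f (rt q')).2.1 q' t := by
    intro q' t h1 h2 h3
    simp only [C, h1, h2, h3, and_self, if_true]
  have hC2 : ∀ q' t, ¬ (q' ≤ t ∧ rt t = rt q' ∧ pr (rt q') < rt q') →
      C q' t = (f (rt q')).2.2 q' t := by
    intro q' t h1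
    simp only [C, h1, if_false]
  -- case 1 facts
  have hne1 : ∀ q' t, q' ≤ t → rt t = rt q' → pr (rt q') < rt q' →
      ((f (pr (rt q'))).2.2 (rt q') t).Nonempty := by
    intro q' t h1 h2 h3
    have hqt : rt q' ≤ t := (hrle q').trans h1
    have hex : ∃ v1 ∈ Z, r v1 < rt q' ∧ rt q' ∈ T v1 ∧ t ∈ T v1 := by
      rcases hE0 t with h' | ⟨h4, u, hu, h5, h6⟩
      · obtain ⟨v1, hv1, h4, h5⟩ := hpr2 _ h3
        rw [h2] at h'
        exact ⟨v1, hv1, h4, h5, h' ▸ h5⟩
      · rw [h2] at h4 h5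
        exact ⟨u, hu, h5, h.conv u hu t h6 _ h5.le h4, h6⟩
    obtain ⟨v1, hv1, h4, h5, h6⟩ := hex
    have hv1p : v1 ∈ Vp (pr (rt q')) := (hVp _ _).2 ⟨hv1, hpr1 _ (hrr q') v1 hv1 h4 h5⟩
    exact (hf _).1.ne _ t hqt ⟨v1, mem_bag.2 ⟨hv1p, h5, h6⟩⟩
  have hbag1 : ∀ q' t, q' ≤ t → rt t = rt q' → Bag Z T q' t ⊆
      Bag (Vp (pr (rt q'))) T (rt q') t ∪ Bag (Vp (rt q')) T q' t := by
    intro q' t h1 h2 v hv
    rw [mem_bag] at hv
    rcases hB t v hv.1 hv.2.2 with h4 | ⟨h4, h5⟩
    · refine Finset.mem_union_right _ (mem_bag.2 ⟨(hVp _ _).2 ⟨hv.1, h4.trans h2⟩, hv.2⟩)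
    · rw [h2] at h4 h5
      exact Finset.mem_union_left _ (mem_bag.2 ⟨(hVp _ _).2 ⟨hv.1, hpr1 _ (hrr q') v hv.1 h4 h5⟩,
        h5, hv.2.2⟩)
  -- case 2 facts
  have hbag2 : ∀ q' t, q' ≤ t → ¬ (rt t = rt q' ∧ pr (rt q') < rt q') →
      Bag Z T q' t ⊆ Bag (Vp (rt q')) T q' t := by
    intro q' t h1 h2 v hv
    rw [mem_bag] at hv
    rcases hB q' v hv.1 hv.2.1 with h4 | ⟨h4, h5⟩
    · exact mem_bag.2 ⟨(hVp _ _).2 ⟨hv.1, h4⟩, hv.2⟩
    · exact absurd ⟨hE q' t (Or.inr ⟨(hrle q').trans h1, v, hv.1, h4, hv.2.2⟩),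
        hpr3 _ ⟨v, hv.1, h4, h5⟩⟩ h2
  have hCsub : ∀ q' t, C q' t ⊆ Bag Z T q' t := by
    intro q' t s hs
    by_cases hcase : q' ≤ t ∧ rt t = rt q' ∧ pr (rt q') < rt q'
    · rw [hC1 q' t hcase.1 hcase.2.1 hcase.2.2] at hs
      rcases Finset.mem_union.1 hs with hs | hs
      · have h1 := mem_bag.1 ((hf _).1.subC _ _ hs)
        have h2 := hVpZ _ h1.1
        exact mem_bag.2 ⟨h2, h.conv s h2 t h1.2.2 q' ((h.le s h2 _ h1.2.1).trans (hrle q'))
          hcase.1, h1.2.2⟩
      · have h1 := mem_bag.1 ((hf _).1.subR _ _ hs)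
        exact mem_bag.2 ⟨hVpZ _ h1.1, h1.2⟩
    · rw [hC2 q' t hcase] at hs
      have h1 := mem_bag.1 ((hf _).1.subC _ _ hs)
      exact mem_bag.2 ⟨hVpZ _ h1.1, h1.2⟩
  have hdisj : ∀ q' t, pr (rt q') < rt q' →
      Disjoint ((f (pr (rt q'))).2.2 (rt q') t) ((f (rt q')).2.1 q' t) := by
    intro q' t h3
    rw [Finset.disjoint_left]
    intro a ha ha'
    have h1 := ((hVp _ _).1 (mem_bag.1 ((hf _).1.subC _ _ ha)).1).2
    have h2 := ((hVp _ _).1 (mem_bag.1 ((hf _).1.subR _ _ ha')).1).2
    rw [h1] at h2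
    exact absurd h2 (ne_of_lt h3)
  have himg : ∀ q q' t, ((Bag (Vp q) T q' t).image c).card ≤
      ((Bag (Vp q) T q' t).image (f q).1).card := by
    intro q q' t
    have : (Bag (Vp q) T q' t).image c ⊆
        ((Bag (Vp q) T q' t).image (f q).1).image (fun x => Nat.pair (idx q) x) := by
      intro x hx
      obtain ⟨v, hv, rfl⟩ := Finset.mem_image.1 hx
      have h1 := ((hVp _ _).1 (mem_bag.1 hv).1).2
      refine Finset.mem_image.2 ⟨(f q).1 v, Finset.mem_image_of_mem _ hv, ?_⟩
      simp only [c, h1]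
    exact (Finset.card_le_card this).trans Finset.card_image_le
  refine ⟨c, C, ?_, ?_, hCsub, ?_, ?_, ?_⟩
  · intro v hv w hw ha he
    simp only [c, Nat.pair_eq_pair] at he
    have h1 := hidx _ _ he.1
    rw [h1] at he
    exact (hf (rt (r w))).1.proper v ((hVp _ _).2 ⟨hv, h1⟩) w ((hVp _ _).2 ⟨hw, rfl⟩) ha he.2
  · intro q' t hqt hne
    by_cases hcase : rt t = rt q' ∧ pr (rt q') < rt q'
    · rw [hC1 q' t hqt hcase.1 hcase.2]
      exact (hne1 q' t hqt hcase.1 hcase.2).mono Finset.subset_union_left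
    · rw [hC2 q' t (fun h' => hcase h'.2)]
      exact (hf _).1.ne q' t hqt (hne.mono (hbag2 q' t hqt hcase))
  · intro q' t
    by_cases hcase : q' ≤ t ∧ rt t = rt q' ∧ pr (rt q') < rt q'
    · rw [hC1 q' t hcase.1 hcase.2.1 hcase.2.2]
      have hl := (hf (rt q')).2 hcase.2.2 (hrr q') q' t (hrle q') hcase.1 hcase.2.1
      intro a ha b hb' hab
      rcases Finset.mem_union.1 ha with h4 | h4 <;> rcases Finset.mem_union.1 hb' with h5 | h5
      · exact (hf _).1.clqC _ _ a h4 b h5 hab
      · exact hl a h4 b h5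
      · exact (hl b h5 a h4).symm
      · exact (hf _).1.clqR _ _ a h4 b h5 hab
    · rw [hC2 q' t hcase]
      exact (hf _).1.clqC _ _
  · intro q' t hqt
    by_cases hcase : rt t = rt q' ∧ pr (rt q') < rt q'
    · rw [hC1 q' t hqt hcase.1 hcase.2, Finset.card_union_of_disjoint (hdisj q' t hcase.2)]
      have h1 := Finset.card_pos.2 (hne1 q' t hqt hcase.1 hcase.2)
      have h2 := (hf (pr (rt q'))).1.cnt (rt q') t ((hrle q').trans hqt)
      have h3 := (hf (rt q')).1.cnt q' t hqt
      have h4 := (hf (pr (rt q'))).1.le (rt q') t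
      have h5 : ((Bag Z T q' t).image c).card ≤
          ((Bag (Vp (pr (rt q'))) T (rt q') t).image c).card +
            ((Bag (Vp (rt q')) T q' t).image c).card := by
        refine (Finset.card_le_card (Finset.image_subset_image (hbag1 q' t hqt hcase.1))).trans ?_
        rw [Finset.image_union]
        exact Finset.card_union_le _ _
      have h6 := himg (pr (rt q')) (rt q') t
      have h7 := himg (rt q') q' t
      have h8 : 2 * d * p * ((f (pr (rt q'))).2.1 (rt q') t).card ≤
          2 * d * p * ((f (pr (rt q'))).2.2 (rt q') t).card := Nat.mul_le_mul_left _ h4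
      generalize ((f (pr (rt q'))).2.2 (rt q') t).card = X at *
      generalize ((f (rt q')).2.1 q' t).card = Y at *
      have h9 : p * 1 ≤ p * X := Nat.mul_le_mul_left _ h1
      calc ((Bag Z T q' t).image c).card ≤ (2 * d * p * X + p) + (2 * d * p * Y + p) := by omega
        _ ≤ 2 * (d + 1) * p * (X + Y) := by nlinarith
    · rw [hC2 q' t (fun h' => hcase h'.2)]
      by_cases hne : (Bag Z T q' t).Nonempty
      · have h1 := Finset.card_pos.2 ((hf _).1.ne q' t hqt (hne.mono (hbag2 q' t hqt hcase)))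
        have h3 := (hf (rt q')).1.cnt q' t hqt
        have h4 := (hf (rt q')).1.le q' t
        have h5 := Finset.card_le_card (Finset.image_subset_image (f := c) (hbag2 q' t hqt hcase))
        have h7 := himg (rt q') q' t
        have h8 := Nat.mul_le_mul_left (2 * d * p) h4
        generalize ((f (rt q')).2.2 q' t).card = X at *
        have h9 : p * 1 ≤ p * X := Nat.mul_le_mul_left _ h1
        calc ((Bag Z T q' t).image c).card ≤ 2 * d * p * X + p := by omega
          _ ≤ 2 * (d + 1) * p * X := by nlinarith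
      · rw [Finset.not_nonempty_iff_eq_empty.1 hne]; simp
  · intro q' t hqt
    by_cases hcase : rt t = rt q' ∧ pr (rt q') < rt q'
    · have hsub : Ker Z T C q' t ⊆
          Ker (Vp (pr (rt q'))) T (fun q t => (f (pr (rt q'))).2.1 q t ∪ (f (pr (rt q'))).2.2 q t)
            (rt q') t ∪
          Ker (Vp (rt q')) T (fun q t => (f (rt q')).2.1 q t ∪ (f (rt q')).2.2 q t) q' t := by
        intro s hs
        obtain ⟨hsZ, hst, t', hqt', hs'⟩ := mem_ker.1 hs
        by_cases hcase' : q' ≤ t' ∧ rt t' = rt q' ∧ pr (rt q') < rt q'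
        · rw [hC1 q' t' hcase'.1 hcase'.2.1 hcase'.2.2] at hs'
          rcases Finset.mem_union.1 hs' with h4 | h4
          · exact Finset.mem_union_left _ (mem_ker.2 ⟨(mem_bag.1 ((hf _).1.subC _ _ h4)).1, hst,
              t', (hrle q').trans hqt', Finset.mem_union_right _ h4⟩)
          · exact Finset.mem_union_right _ (mem_ker.2 ⟨(mem_bag.1 ((hf _).1.subR _ _ h4)).1, hst,
              t', hqt', Finset.mem_union_left _ h4⟩)
        · rw [hC2 q' t' hcase'] at hs'
          exact Finset.mem_union_right _ (mem_ker.2 ⟨(mem_bag.1 ((hf _).1.subC _ _ hs')).1, hst,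
              t', hqt', Finset.mem_union_right _ hs'⟩)
      rw [hC1 q' t hqt hcase.1 hcase.2, Finset.card_union_of_disjoint (hdisj q' t hcase.2)]
      have h1 := Finset.card_pos.2 (hne1 q' t hqt hcase.1 hcase.2)
      have h2 := (hf (pr (rt q'))).1.ker (rt q') t ((hrle q').trans hqt)
      have h3 := (hf (rt q')).1.ker q' t hqt
      have h4 := (hf (pr (rt q'))).1.le (rt q') t
      have h5 := (Finset.card_le_card hsub).trans (Finset.card_union_le _ _)
      have h8 := Nat.mul_le_mul_left (2 * d * P) h4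
      generalize ((f (pr (rt q'))).2.2 (rt q') t).card = X at *
      generalize ((f (rt q')).2.1 q' t).card = Y at *
      have h9 : P * 1 ≤ P * X := Nat.mul_le_mul_left _ h1
      calc (Ker Z T C q' t).card ≤ (2 * d * P * X + P) + (2 * d * P * Y + P) := by omega
        _ ≤ 2 * (d + 1) * P * (X + Y) := by nlinarith
    · have hsub : Ker Z T C q' t ⊆
          Ker (Vp (rt q')) T (fun q t => (f (rt q')).2.1 q t ∪ (f (rt q')).2.2 q t) q' t := by
        intro s hs
        obtain ⟨hsZ, hst, t', hqt', hs'⟩ := mem_ker.1 hs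
        by_cases hcase' : q' ≤ t' ∧ rt t' = rt q' ∧ pr (rt q') < rt q'
        · rw [hC1 q' t' hcase'.1 hcase'.2.1 hcase'.2.2] at hs'
          rcases Finset.mem_union.1 hs' with h4 | h4
          · exfalso
            have h5 := mem_bag.1 ((hf _).1.subC _ _ h4)
            have h6 := ((hVp _ _).1 h5.1).2
            have h7 : r s < rt q' := by
              refine lt_of_le_of_ne (h.le s hsZ _ h5.2.1) ?_
              intro h8
              rw [h8, hrr] at h6
              exact absurd h6.symm (ne_of_lt hcase'.2.2)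
            exact hcase ⟨hE q' t (Or.inr ⟨(hrle q').trans hqt, s, hsZ, h7, hst⟩), hcase'.2.2⟩
          · exact mem_ker.2 ⟨(mem_bag.1 ((hf _).1.subR _ _ h4)).1, hst,
              t', hqt', Finset.mem_union_left _ h4⟩
        · rw [hC2 q' t' hcase'] at hs'
          exact mem_ker.2 ⟨(mem_bag.1 ((hf _).1.subC _ _ hs')).1, hst,
              t', hqt', Finset.mem_union_right _ hs'⟩
      by_cases hne : (Bag Z T q' t).Nonempty
      · rw [hC2 q' t (fun h' => hcase h'.2)]
        have h1 := Finset.card_pos.2 ((hf _).1.ne q' t hqt (hne.mono (hbag2 q' t hqt hcase)))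
        have h3 := (hf (rt q')).1.ker q' t hqt
        have h4 := (hf (rt q')).1.le q' t
        have h5 := Finset.card_le_card hsub
        have h8 := Nat.mul_le_mul_left (2 * d * P) h4
        generalize ((f (rt q')).2.2 q' t).card = X at *
        have h9 : P * 1 ≤ P * X := Nat.mul_le_mul_left _ h1
        calc (Ker Z T C q' t).card ≤ 2 * d * P * X + P := by omega
          _ ≤ 2 * (d + 1) * P * X := by nlinarith
      · have : Ker Z T C q' t = ∅ := by
          rw [Finset.eq_empty_iff_forall_notMem]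
          intro s hs
          obtain ⟨hsZ, hst, t', hqt', hs'⟩ := mem_ker.1 hs
          exact hne ⟨s, mem_bag.2 ⟨hsZ, (mem_bag.1 (hCsub q' t' hs')).2.1, hst⟩⟩
        rw [this]; simp

end Pool.Agent.IMT
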