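import Pool.Agent.Work.ImTreewidth.Basic

set_option autoImplicit false

namespace Pool.Agent.IMT

open Finset Classical

/-- Down-sets of points are chains. -/
def TreeOrd (N : Type) [PartialOrder N] : Prop :=
  ∀ a b t : N, a ≤ t → b ≤ t → a ≤ b ∨ b ≤ a

variable {N V : Type} [PartialOrder N]

/-- A tree decomposition in a rooted tree order: `T v` is the (connected) set of nodes whose bag
contains `v`, and `r v` is its top node. -/
structure Sys (G : SimpleGraph V) (Z : Finset V) (T : V → Finset N) (r : V → N) : Prop where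
  mem : ∀ v ∈ Z, r v ∈ T v
  le : ∀ v ∈ Z, ∀ t ∈ T v, r v ≤ t
  conv : ∀ v ∈ Z, ∀ t ∈ T v, ∀ s, r v ≤ s → s ≤ t → s ∈ T v
  edge : ∀ v ∈ Z, ∀ w ∈ Z, G.Adj v w → ∃ t, t ∈ T v ∧ t ∈ T w

theorem Sys.mono {G : SimpleGraph V} {Z Z' : Finset V} {T : V → Finset N} {r : V → N}
    (h : Sys G Z T r) (hZ : Z' ⊆ Z) : Sys G Z' T r :=
  ⟨fun v hv => h.mem v (hZ hv), fun v hv => h.le v (hZ hv), fun v hv => h.conv v (hZ hv),
    fun v hv w hw => h.edge v (hZ hv) w (hZ hw)⟩

/-- induced matchings all of whose edges touch a common bag have at most `k` edges -/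
def Mu (G : SimpleGraph V) (Z : Finset V) (T : V → Finset N) (k : ℕ) : Prop :=
  ∀ t : N, ∀ S ⊆ Z, IM G S → (∀ v ∈ S, ∃ u ∈ S, G.Adj v u ∧ (t ∈ T v ∨ t ∈ T u)) →
    S.card ≤ 2 * k

/-- every lowest node of `T u` (other than the top) is needed for an edge -/
def Tight (G : SimpleGraph V) (Z : Finset V) (T : V → Finset N) (r : V → N) : Prop :=
  ∀ u ∈ Z, ∀ l ∈ T u, (∀ t ∈ T u, l ≤ t → t = l) → l ≠ r u →
    ∃ y ∈ Z, G.Adj u y ∧ l ∈ T y ∧ ∀ t ∈ T y, t ∈ T u → t = l

section
variable {G : SimpleGraph V} {Z : Finset V} {T : V → Finset N} {r : V → N}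

theorem Sys.top (h : Sys G Z T r) {v w : V} (hv : v ∈ Z) {t : N}
    (htv : t ∈ T v) (hle : r v ≤ r w) (hw : r w ≤ t) : r w ∈ T v :=
  h.conv v hv t htv _ hle hw

theorem Sys.comparable (hN : TreeOrd N) (h : Sys G Z T r) {v w : V} (hv : v ∈ Z) (hw : w ∈ Z)
    (hi : ∃ t, t ∈ T v ∧ t ∈ T w) : (r v ≤ r w ∧ r w ∈ T v) ∨ (r w ≤ r v ∧ r v ∈ T w) := by
  obtain ⟨t, h1, h2⟩ := hi
  have hrv := h.le v hv t h1
  have hrw := h.le w hw t h2
  rcases hN _ _ t hrv hrw with h' | h'
  · exact Or.inl ⟨h', h.top hv h1 h' hrw⟩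
  · exact Or.inr ⟨h', h.top hw h2 h' hrv⟩

theorem Sys.helly3 (hN : TreeOrd N) (h : Sys G Z T r) {v w u : V} (hv : v ∈ Z) (hw : w ∈ Z)
    (hu : u ∈ Z) (h1 : ∃ t, t ∈ T v ∧ t ∈ T w) (h2 : ∃ t, t ∈ T v ∧ t ∈ T u)
    (h3 : ∃ t, t ∈ T w ∧ t ∈ T u) : ∃ t, t ∈ T v ∧ t ∈ T w ∧ t ∈ T u := by
  rcases h.comparable hN hv hw h1 with ⟨a1, b1⟩ | ⟨a1, b1⟩ <;>
  rcases h.comparable hN hv hu h2 with ⟨a2, b2⟩ | ⟨a2, b2⟩ <;>
  rcases h.comparable hN hw hu h3 with ⟨a3, b3⟩ | ⟨a3, b3⟩
  · exact ⟨r u, b2, b3, h.mem u hu⟩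
  · exact ⟨r w, b1, h.mem w hw, b3⟩
  · have e : r v = r u := le_antisymm (a1.trans a3) a2
    exact ⟨r u, e ▸ h.mem v hv, b3, h.mem u hu⟩
  · exact ⟨r w, b1, h.mem w hw, b3⟩
  · exact ⟨r u, b2, b3, h.mem u hu⟩
  · have e : r v = r w := le_antisymm (a2.trans a3) a1
    exact ⟨r v, h.mem v hv, b1, e ▸ b3⟩
  · exact ⟨r v, h.mem v hv, b1, b2⟩
  · exact ⟨r v, h.mem v hv, b1, b2⟩

/-- tightening a system -/
theorem exists_tight {k : ℕ} (n : ℕ) : ∀ (T : V → Finset N), (∑ v ∈ Z, (T v).card) = n →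
    Sys G Z T r → Mu G Z T k → ∃ T' : V → Finset N, Sys G Z T' r ∧ Mu G Z T' k ∧
      Tight G Z T' r := by
  induction n using Nat.strong_induction_on with
  | _ n ih =>
    intro T hn hS hM
    by_cases hT : Tight G Z T r
    · exact ⟨T, hS, hM, hT⟩
    · unfold Tight at hT
      push Not at hT
      obtain ⟨u, hu, l, hl, hmax, hlr, hno⟩ := hT
      let T1 : V → Finset N := Function.update T u ((T u).erase l)
      have hT1u : T1 u = (T u).erase l := Function.update_self _ _ _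
      have hT1v : ∀ v, v ≠ u → T1 v = T v := fun v hv => Function.update_of_ne hv _ _
      have hsub : ∀ v, T1 v ⊆ T v := by
        intro v
        by_cases hv : v = u
        · subst hv; rw [hT1u]; exact Finset.erase_subset _ _
        · rw [hT1v v hv]
      have hS1 : Sys G Z T1 r := by
        refine ⟨?_, ?_, ?_, ?_⟩
        · intro v hv
          by_cases hvu : v = u
          · subst hvu; rw [hT1u]; exact Finset.mem_erase.2 ⟨hlr.symm, hS.mem _ hv⟩
          · rw [hT1v v hvu]; exact hS.mem v hv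
        · intro v hv t ht
          exact hS.le v hv t (hsub v ht)
        · intro v hv t ht s h1 h2
          have h3 := hS.conv v hv t (hsub v ht) s h1 h2
          by_cases hvu : v = u
          · subst hvu
            rw [hT1u] at ht ⊢
            refine Finset.mem_erase.2 ⟨?_, h3⟩
            rintro rfl
            exact (Finset.mem_erase.1 ht).1 (hmax t (Finset.mem_erase.1 ht).2 h2)
          · rw [hT1v v hvu]; exact h3
        · -- edges at u
          have key : ∀ w ∈ Z, G.Adj u w → ∃ t, t ∈ T1 u ∧ t ∈ T1 w := by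
            intro w hw ha
            have hwu : w ≠ u := ha.ne'
            rw [hT1u, hT1v w hwu]
            obtain ⟨t, h1, h2⟩ := hS.edge u hu w hw ha
            by_cases htl : t = l
            · subst htl
              obtain ⟨t', h3, h4, h5⟩ := hno w hw ha h2
              exact ⟨t', Finset.mem_erase.2 ⟨h5, h4⟩, h3⟩
            · exact ⟨t, Finset.mem_erase.2 ⟨htl, h1⟩, h2⟩
          intro v hv w hw ha
          by_cases hvu : v = u
          · subst hvu; exact key w hw ha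
          by_cases hwu : w = u
          · subst hwu
            obtain ⟨t, h1, h2⟩ := key v hv ha.symm
            exact ⟨t, h2, h1⟩
          · rw [hT1v v hvu, hT1v w hwu]; exact hS.edge v hv w hw ha
      have hM1 : Mu G Z T1 k := by
        intro t S hSZ hI ht
        refine hM t S hSZ hI ?_
        intro v hv
        obtain ⟨u', hu', ha, h'⟩ := ht v hv
        exact ⟨u', hu', ha, h'.imp (fun h => hsub v h) (fun h => hsub u' h)⟩
      have hlt : (∑ v ∈ Z, (T1 v).card) < n := by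
        rw [← hn]
        refine Finset.sum_lt_sum (fun v _ => Finset.card_le_card (hsub v)) ⟨u, hu, ?_⟩
        rw [hT1u]
        exact Finset.card_erase_lt_of_mem hl
      exact ih _ hlt T1 rfl hS1 hM1

theorem exists_maximal_above (T : Finset N) {t : N} (ht : t ∈ T) :
    ∃ l ∈ T, t ≤ l ∧ ∀ s ∈ T, l ≤ s → s = l := by
  obtain ⟨l, hl, hmax⟩ := (T.filter (fun s => t ≤ s)).exists_maximal
    ⟨t, Finset.mem_filter.2 ⟨ht, le_refl t⟩⟩
  rw [Finset.mem_filter] at hl
  refine ⟨l, hl.1, hl.2, fun s hs hls => ?_⟩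
  exact le_antisymm (hmax (Finset.mem_filter.2 ⟨hs, hl.2.trans hls⟩) hls) hls

/-- the private neighbour lives entirely below the leaf. -/
theorem Sys.top_eq (hN : TreeOrd N) (h : Sys G Z T r) {u y : V} (hu : u ∈ Z) (hy : y ∈ Z) {l : N}
    (hlu : l ∈ T u) (hly : l ∈ T y) (honly : ∀ t ∈ T y, t ∈ T u → t = l) (hlr : l ≠ r u) :
    r y = l := by
  have h1 := h.le u hu l hlu
  have h2 := h.le y hy l hly
  rcases hN _ _ l h1 h2 with h3 | h3
  · exact honly _ (h.mem y hy) (h.conv u hu l hlu _ h3 h2)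
  · exact absurd (honly _ (h.conv y hy l hly _ h3 h1) (h.mem u hu)).symm hlr

/-- thin covers -/
theorem thin (hN : TreeOrd N) (h : Sys G Z T r) {k d : ℕ} (hk : 1 ≤ k) (hd : 1 ≤ d)
    (hM : Mu G Z T k) (hT : Tight G Z T r) (hC : CN G Z d) (q : N) (Y : Finset V) (hY : Y ⊆ Z)
    (hYq : ∀ v ∈ Y, q ∈ T v) :
    ∃ Y' ⊆ Y, Y'.card ≤ k * d ^ k ∧
      ∀ t, q ≤ t → (∃ v ∈ Y, t ∈ T v) → ∃ v ∈ Y', t ∈ T v := by
  obtain ⟨Y', hY', hmin⟩ := Finset.exists_min_image (Y.powerset.filter (fun Y' =>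
    ∀ t, q ≤ t → (∃ v ∈ Y, t ∈ T v) → ∃ v ∈ Y', t ∈ T v)) Finset.card
    ⟨Y, Finset.mem_filter.2 ⟨Finset.mem_powerset.2 (Finset.Subset.refl _), fun t _ h => h⟩⟩
  simp only [Finset.mem_filter, Finset.mem_powerset] at hY' hmin
  obtain ⟨hsub, hcov⟩ := hY'
  refine ⟨Y', hsub, ?_, hcov⟩
  -- irredundance
  have hirr : ∀ v ∈ Y', ∃ t, q ≤ t ∧ t ∈ T v ∧ ∀ v' ∈ Y', v' ≠ v → t ∉ T v' := by
    intro v hv
    by_contra hno
    push Not at hno
    have := hmin (Y'.erase v) ⟨(Finset.erase_subset _ _).trans hsub, ?_⟩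
    · have h2 := Finset.card_erase_lt_of_mem hv
      omega
    · intro t hqt hex
      obtain ⟨v1, hv1, ht1⟩ := hcov t hqt hex
      by_cases hvv : v1 = v
      · subst hvv
        obtain ⟨v', hv', hne, ht'⟩ := hno t hqt ht1
        exact ⟨v', Finset.mem_erase.2 ⟨hne, hv'⟩, ht'⟩
      · exact ⟨v1, Finset.mem_erase.2 ⟨hvv, hv1⟩, ht1⟩
  refine ramsey G d hd k Y' ?_ (hC.mono (hsub.trans hY))
  intro I hI hInd
  by_cases hcard : I.card ≤ 1
  · omega
  push Not at hcard
  -- private data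
  have hpriv : ∀ v ∈ I, ∃ p : N × N × V, q ≤ p.1 ∧ p.1 ∈ T v ∧ (∀ v' ∈ I, v' ≠ v → p.1 ∉ T v') ∧
      p.1 ≤ p.2.1 ∧ p.2.2 ∈ Z ∧ G.Adj v p.2.2 ∧ r p.2.2 = p.2.1 ∧ p.2.1 ∈ T v := by
    intro v hv
    obtain ⟨t, hqt, htv, hpr⟩ := hirr v (hI hv)
    obtain ⟨l, hl, htl, hlmax⟩ := exists_maximal_above (T v) htv
    obtain ⟨v', hv', hne⟩ := Finset.exists_mem_ne hcard v
    have hvZ : v ∈ Z := hY (hsub (hI hv))
    have htq : t ≠ q := by
      rintro rfl
      exact hpr v' (hI hv') hne (hYq v' (hsub (hI hv')))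
    have hlr : l ≠ r v := by
      rintro rfl
      have h1 : r v ≤ q := h.le v hvZ q (hYq v (hsub (hI hv)))
      exact htq (le_antisymm (htl.trans h1) hqt)
    obtain ⟨y, hy, hay, hly, hyo⟩ := hT v hvZ l hl hlmax hlr
    refine ⟨(t, l, y), hqt, htv, fun v' hv' hne' => hpr v' (hI hv') hne', htl, hy, hay, ?_, hl⟩
    exact h.top_eq hN hvZ hy hl hly hyo hlr
  have : Nonempty N := ⟨q⟩
  have : Nonempty V := by
    obtain ⟨a, _⟩ := Finset.card_pos.1 (by omega : 0 < I.card)
    exact ⟨a⟩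
  choose! p hp using hpriv
  let y : V → V := fun v => (p v).2.2
  -- non adjacency
  have hyv : ∀ v ∈ I, ∀ v' ∈ I, v' ≠ v → ¬ G.Adj (y v) v' := by
    intro v hv v' hv' hne ha
    obtain ⟨h1, h2, h3, h4, h5, h6, h7, h8⟩ := hp v hv
    have hv'Z : v' ∈ Z := hY (hsub (hI hv'))
    obtain ⟨s, hs1, hs2⟩ := h.edge _ h5 v' hv'Z ha
    have h9 : (p v).2.1 ≤ s := h7 ▸ h.le _ h5 s hs1
    exact h3 v' hv' hne (h.conv v' hv'Z s hs2 _
      ((h.le v' hv'Z q (hYq v' (hsub (hI hv')))).trans h1) (h4.trans h9))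
  have hyy : ∀ v ∈ I, ∀ v' ∈ I, v' ≠ v → ¬ G.Adj (y v) (y v') := by
    intro v hv v' hv' hne ha
    obtain ⟨h1, h2, h3, h4, h5, h6, h7, h8⟩ := hp v hv
    obtain ⟨h1', h2', h3', h4', h5', h6', h7', h8'⟩ := hp v' hv'
    have hvZ : v ∈ Z := hY (hsub (hI hv))
    have hv'Z : v' ∈ Z := hY (hsub (hI hv'))
    obtain ⟨s, hs1, hs2⟩ := h.edge _ h5 _ h5' ha
    have h9 : (p v).2.1 ≤ s := h7 ▸ h.le _ h5 s hs1
    have h9' : (p v').2.1 ≤ s := h7' ▸ h.le _ h5' s hs2
    rcases hN _ _ s h9 h9' with h10 | h10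
    · exact h3 v' hv' hne (h.conv v' hv'Z _ h8' _
        ((h.le v' hv'Z q (hYq v' (hsub (hI hv')))).trans h1) (h4.trans h10))
    · exact h3' v hv (Ne.symm hne) (h.conv v hvZ _ h8 _
        ((h.le v hvZ q (hYq v (hsub (hI hv)))).trans h1') (h4'.trans h10))
  have hyI : ∀ v ∈ I, y v ∉ I := fun v hv hyv' => hInd v hv (y v) hyv' (hp v hv).2.2.2.2.2.1
  have hinj : Set.InjOn y (I : Set V) := by
    intro v hv v' hv' he
    by_contra hne
    have h1 := (hp v' hv').2.2.2.2.2.1
    have h2 : G.Adj (y v) v' := by rw [he]; exact h1.symm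
    exact hyv v hv v' hv' (Ne.symm hne) h2
  let S := I ∪ I.image y
  have hScard : S.card = 2 * I.card := by
    have hdisj : Disjoint I (I.image y) := by
      rw [Finset.disjoint_left]
      intro a ha ha'
      obtain ⟨v, hv, rfl⟩ := Finset.mem_image.1 ha'
      exact hyI v hv ha
    simp only [S]
    rw [Finset.card_union_of_disjoint hdisj, Finset.card_image_of_injOn hinj]
    ring
  have hSZ : S ⊆ Z := by
    intro a ha
    rcases Finset.mem_union.1 ha with h' | h'
    · exact hY (hsub (hI h'))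
    · obtain ⟨v, hv, rfl⟩ := Finset.mem_image.1 h'
      exact (hp v hv).2.2.2.2.1
  have hadj : ∀ v ∈ I, G.Adj v (y v) := fun v hv => (hp v hv).2.2.2.2.2.1
  have hSI : IM G S := by
    intro a ha
    rcases Finset.mem_union.1 ha with h' | h'
    · refine ⟨y a, ⟨Finset.mem_union_right _ (Finset.mem_image_of_mem _ h'), hadj a h'⟩, ?_⟩
      rintro b ⟨hb, hab⟩
      rcases Finset.mem_union.1 hb with hb' | hb'
      · exact absurd hab (hInd a h' b hb')
      · obtain ⟨v, hv, rfl⟩ := Finset.mem_image.1 hb'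
        by_cases hva : a = v
        · rw [hva]
        · exact absurd hab.symm (hyv v hv a h' hva)
    · obtain ⟨v, hv, rfl⟩ := Finset.mem_image.1 h'
      refine ⟨v, ⟨Finset.mem_union_left _ hv, (hadj v hv).symm⟩, ?_⟩
      rintro b ⟨hb, hab⟩
      rcases Finset.mem_union.1 hb with hb' | hb'
      · by_contra hne
        exact hyv v hv b hb' hne hab
      · obtain ⟨v', hv', rfl⟩ := Finset.mem_image.1 hb'
        by_cases hvv : v' = v
        · subst hvv; exact absurd hab G.irrefl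
        · exact absurd hab (hyy v hv v' hv' hvv)
  have := hM q S hSZ hSI ?_
  · omega
  · intro a ha
    rcases Finset.mem_union.1 ha with h' | h'
    · exact ⟨y a, Finset.mem_union_right _ (Finset.mem_image_of_mem _ h'), hadj a h',
        Or.inl (hYq a (hsub (hI h')))⟩
    · obtain ⟨v, hv, rfl⟩ := Finset.mem_image.1 h'
      exact ⟨v, Finset.mem_union_left _ hv, (hadj v hv).symm, Or.inr (hYq v (hsub (hI hv)))⟩

/-- fake neighbours -/
noncomputable def Fk (G : SimpleGraph V) (Z : Finset V) (T : V → Finset N) (u : V) : Finset V :=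
  Z.filter (fun v => v ≠ u ∧ ¬ G.Adj u v ∧ ∃ t, t ∈ T v ∧ t ∈ T u)

theorem fake_col (hN : TreeOrd N) (h : Sys G Z T r) {k d f w : ℕ}
    (hM : Mu G Z T (k + 1)) (hT : Tight G Z T r) (hC : CN G Z d)
    (hw : ∀ t, ColOn G (Z.filter (fun v => t ∈ T v)) w)
    (hprev : ∀ (Z' : Finset V) (T' : V → Finset N) (r' : V → N), Sys G Z' T' r' → Mu G Z' T' k →
      CN G Z' d → ColOn G Z' f) (u : V) (hu : u ∈ Z) : ColOn G (Fk G Z T u) (f + w) := by
  by_cases hone : ∀ t ∈ T u, t = r u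
  · refine (hw (r u)).mono ?_ (by omega)
    intro v hv
    simp only [Fk, Finset.mem_filter] at hv ⊢
    obtain ⟨h1, _, _, t, h2, h3⟩ := hv
    exact ⟨h1, hone t h3 ▸ h2⟩
  · push Not at hone
    obtain ⟨t0, ht0, hne0⟩ := hone
    obtain ⟨l, hl, htl, hlmax⟩ := exists_maximal_above (T u) ht0
    have hlr : l ≠ r u := by
      rintro rfl
      exact hne0 (le_antisymm htl (h.le u hu t0 ht0))
    obtain ⟨y, hy, hay, hly, hyo⟩ := hT u hu l hl hlmax hlr
    let F1 := (Fk G Z T u).filter (fun v => ¬ G.Adj y v)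
    let F2 := (Fk G Z T u).filter (fun v => G.Adj y v)
    have hF : Fk G Z T u = F1 ∪ F2 := by
      ext v
      simp only [F1, F2, Finset.mem_union, Finset.mem_filter]
      tauto
    have hF1Z : F1 ⊆ Z := (Finset.filter_subset _ _).trans (Finset.filter_subset _ _)
    rw [hF]
    refine ColOn.union ?_ ?_
    · let T' : V → Finset N := fun v => T v ∩ T u
      let r' : V → N := fun v => if r u ≤ r v then r v else r u
      have hint : ∀ v ∈ F1, v ∈ Z ∧ ¬ G.Adj u v ∧ ¬ G.Adj y v ∧ ∃ t, t ∈ T v ∧ t ∈ T u := by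
        intro v hv
        simp only [F1, Fk, Finset.mem_filter] at hv
        exact ⟨hv.1.1, hv.1.2.2.1, hv.2, hv.1.2.2.2⟩
      have hS' : Sys G F1 T' r' := by
        refine ⟨?_, ?_, ?_, ?_⟩
        · intro v hv
          obtain ⟨hvZ, _, _, hi⟩ := hint v hv
          simp only [T', r', Finset.mem_inter]
          split_ifs with hc
          · rcases h.comparable hN hvZ hu hi with ⟨a, b⟩ | ⟨a, b⟩
            · have e : r v = r u := le_antisymm a hc
              exact ⟨h.mem v hvZ, e ▸ h.mem u hu⟩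
            · exact ⟨h.mem v hvZ, b⟩
          · rcases h.comparable hN hvZ hu hi with ⟨a, b⟩ | ⟨a, b⟩
            · exact ⟨b, h.mem u hu⟩
            · exact absurd a hc
        · intro v hv t ht
          obtain ⟨hvZ, _, _, hi⟩ := hint v hv
          simp only [T', r', Finset.mem_inter] at ht ⊢
          split_ifs with hc
          · exact h.le v hvZ t ht.1
          · exact h.le u hu t ht.2
        · intro v hv t ht s h1 h2
          obtain ⟨hvZ, _, _, hi⟩ := hint v hv
          simp only [T', r', Finset.mem_inter] at ht h1 ⊢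
          split_ifs at h1 with hc
          · exact ⟨h.conv v hvZ t ht.1 s h1 h2, h.conv u hu t ht.2 s (hc.trans h1) h2⟩
          · have : r v ≤ r u := by
              rcases h.comparable hN hvZ hu hi with ⟨a, b⟩ | ⟨a, b⟩
              · exact a
              · exact absurd a hc
            exact ⟨h.conv v hvZ t ht.1 s (this.trans h1) h2, h.conv u hu t ht.2 s h1 h2⟩
        · intro v hv w hw ha
          obtain ⟨hvZ, _, _, hi⟩ := hint v hv
          obtain ⟨hwZ, _, _, hi'⟩ := hint w hw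
          obtain ⟨t, h1, h2, h3⟩ := h.helly3 hN hvZ hwZ hu (h.edge v hvZ w hwZ ha) hi hi'
          exact ⟨t, by simp [T', h1, h3], by simp [T', h2, h3]⟩
      refine hprev F1 T' r' hS' ?_ (hC.mono hF1Z)
      intro t S hS hI hS2
      by_cases hne : S = ∅
      · simp [hne]
      · obtain ⟨s0, hs0⟩ := Finset.nonempty_iff_ne_empty.2 hne
        have htu : t ∈ T u := by
          obtain ⟨_, _, _, h'⟩ := hS2 s0 hs0
          simp only [T', Finset.mem_inter] at h'
          rcases h' with h' | h'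
          · exact h'.2
          · exact h'.2
        obtain ⟨hIM, hn1, hn2⟩ := IM.insert hI hay (fun s hs => (hint s (hS hs)).2.1)
          (fun s hs => (hint s (hS hs)).2.2.1)
        have := hM t (insert u (insert y S)) ?_ hIM ?_
        · rw [Finset.card_insert_of_notMem hn1, Finset.card_insert_of_notMem hn2] at this
          omega
        · intro a ha
          rcases Finset.mem_insert.1 ha with rfl | ha
          · exact hu
          rcases Finset.mem_insert.1 ha with rfl | ha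
          · exact hy
          · exact hF1Z (hS ha)
        · intro a ha
          rcases Finset.mem_insert.1 ha with rfl | ha
          · exact ⟨y, by simp, hay, Or.inl htu⟩
          rcases Finset.mem_insert.1 ha with rfl | ha
          · exact ⟨u, by simp, hay.symm, Or.inr htu⟩
          · obtain ⟨b, hb, hab, h'⟩ := hS2 a ha
            simp only [T', Finset.mem_inter] at h'
            exact ⟨b, by simp [hb], hab, h'.imp (fun h => h.1) (fun h => h.1)⟩
    · refine (hw l).mono ?_ (le_refl _)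
      intro v hv
      simp only [F2, Fk, Finset.mem_filter] at hv ⊢
      obtain ⟨⟨hvZ, _, _, hi⟩, hyv⟩ := hv
      obtain ⟨t, h1, h2, h3⟩ := h.helly3 hN hvZ hy hu
        (by obtain ⟨t, h1, h2⟩ := h.edge y hy v hvZ hyv; exact ⟨t, h2, h1⟩) hi ⟨l, hly, hl⟩
      exact ⟨hvZ, hyo t h2 h3 ▸ h1⟩

end

end Pool.Agent.IMT
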